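import Pool.Agent.H67.W3.Defs
import Pool.Agent.H67.W2.Chain

/-!
# Basic facts on walls: crossing, deep points, full boundaries, corners
-/

set_option autoImplicit false

namespace Pool.Agent.QIS

open MulAction

namespace QW

variable {G X : Type} [Group G] [Group X] {S : Set G} {S' : Set X} {K : ℕ}

/-- the same map with a larger constant -/
def mono (w : QW S S' K) {K' : ℕ} (h : K ≤ K') : QW S S' K' where
  f := w.f
  f' := w.f'
  hf := w.hf.mono h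
  hf' := w.hf'.mono h
  h1 y := (w.h1 y).trans h
  h2 x := (w.h2 x).trans h

/-- the map `x ↦ g f(k x)` -/
def tw (w : QW S S' K) (g : X) (k : G) : QW S S' K where
  f x := g * w.f (k * x)
  f' y := k⁻¹ * w.f' (g⁻¹ * y)
  hf := w.hf.twist k g
  hf' := w.hf'.twist g⁻¹ k⁻¹
  h1 y := by
    show wdist S' (g * w.f (k * (k⁻¹ * w.f' (g⁻¹ * y)))) y ≤ K
    rw [mul_inv_cancel_left, ← wdist_mul_left g⁻¹, inv_mul_cancel_left]
    exact w.h1 _
  h2 x := by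
    show wdist S (k⁻¹ * w.f' (g⁻¹ * (g * w.f (k * x)))) x ≤ K
    rw [inv_mul_cancel_left, ← wdist_mul_left k, mul_inv_cancel_left]
    exact w.h2 _

/-- the identity -/
def idw (S : Set G) {K : ℕ} (h : 1 ≤ K) : QW S S K where
  f x := x
  f' x := x
  hf := IsQI.id'.mono h
  hf' := IsQI.id'.mono h
  h1 y := by rw [wdist_self]; exact Nat.zero_le _
  h2 y := by rw [wdist_self]; exact Nat.zero_le _

/-- the inverse -/
def inv {S : Set G} (w : QW S S' K) : QW S' S K where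
  f := w.f'
  f' := w.f
  hf := w.hf'
  hf' := w.hf
  h1 := w.h2
  h2 := w.h1

/-- the constant of a composition -/
def _root_.Pool.Agent.QIS.Kc (K : ℕ) : ℕ := K * K + K + K + K + K

/-- the map `w₁' ∘ w₂` -/
def comp (gS : Subgroup.closure S = ⊤) (w₁ w₂ : QW S S' K) :
    QW S S (Kc K) where
  f x := w₁.f' (w₂.f x)
  f' x := w₂.f' (w₁.f x)
  hf := w₂.hf.comp w₁.hf' gS
  hf' := w₁.hf.comp w₂.hf' gS
  h1 y := by
    have e1 := w₂.h1 (w₁.f y)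
    have e2 := w₁.hf'.1 (w₂.f (w₂.f' (w₁.f y))) (w₁.f y)
    have e3 := w₁.h2 y
    have e4 := wdist_triangle gS (w₁.f' (w₂.f (w₂.f' (w₁.f y)))) (w₁.f' (w₁.f y)) y
    have e5 : K * wdist S' (w₂.f (w₂.f' (w₁.f y))) (w₁.f y) ≤ K * K := Nat.mul_le_mul_left _ e1
    unfold Kc
    omega
  h2 y := by
    have e1 := w₁.h1 (w₂.f y)
    have e2 := w₂.hf'.1 (w₁.f (w₁.f' (w₂.f y))) (w₂.f y)
    have e3 := w₂.h2 y
    have e4 := wdist_triangle gS (w₂.f' (w₁.f (w₁.f' (w₂.f y)))) (w₂.f' (w₂.f y)) y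
    have e5 : K * wdist S' (w₁.f (w₁.f' (w₂.f y))) (w₂.f y) ≤ K * K := Nat.mul_le_mul_left _ e1
    unfold Kc
    omega

theorem le_Kc (K : ℕ) : K ≤ Kc K := by
  unfold Kc; have := Nat.zero_le (K * K); omega

end QW

namespace Sp

variable {G : Type} [Group G] (D : Sp G)

theorem A_iff_sd (g : G) : D.A g ↔ sd D.E 1 (g • D.E.a) := by
  unfold A sd
  rw [one_smul, one_smul]

theorem C_eq : D.C = ES D.E 1 := by
  ext g
  rw [mem_ES_iff, inv_one, one_mul]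
  rfl

/-- the edge group preserves the sides -/
theorem A_mul {x : G} (hx : x ∈ D.E.edgeGroup) (g : G) : D.A (x * g) ↔ D.A g := by
  rw [A_iff_sd, A_iff_sd, mul_smul]
  have e1 := sd_smul D.E x 1 (g • D.E.a)
  rw [mul_one] at e1
  have e2 : x ∈ ES D.E 1 := by rw [← C_eq]; exact hx
  rw [← e1, sd_eq_of_mem D.E e2]

theorem mem_nbhd_C_mul {x : G} (hx : x ∈ D.E.edgeGroup) (R : ℕ) (g : G) :
    x * g ∈ nbhd D.S R D.C ↔ g ∈ nbhd D.S R D.C := by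
  constructor
  · rintro ⟨l, hl, hd⟩
    refine ⟨x⁻¹ * l, D.E.edgeGroup.mul_mem (D.E.edgeGroup.inv_mem hx) hl, ?_⟩
    rw [← wdist_mul_left x, mul_inv_cancel_left]
    exact hd
  · rintro ⟨l, hl, hd⟩
    exact ⟨x * l, D.E.edgeGroup.mul_mem hx hl, by rw [wdist_mul_left]; exact hd⟩

theorem zpow_mem (s : ℤ) : D.c ^ s ∈ D.E.edgeGroup := D.E.edgeGroup.zpow_mem D.hc s

theorem exists_crossG : ∃ c : ℕ, ∀ x y : G, ¬ (D.A x ↔ D.A y) →
    x ∈ nbhd D.S (wdist D.S x y + c) D.C := by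
  obtain ⟨r₀, h₀⟩ := exists_cross D.hS D.gS D.E
  refine ⟨r₀, fun x y h => ?_⟩
  rw [C_eq]
  refine h₀ 1 x y ?_
  rwa [← A_iff_sd, ← A_iff_sd]

variable {X : Type} [Group X] {S' : Set X} {K : ℕ}

theorem mem_Zb_true (w : QW D.S S' K) (y : X) : y ∈ D.Zb w true ↔ y ∈ D.Z w := Iff.rfl

theorem mem_Zb_false (w : QW D.S S' K) (y : X) : y ∈ D.Zb w false ↔ y ∉ D.Z w := Iff.rfl

theorem mem_Zb_not (w : QW D.S S' K) (σ : Bool) (y : X) :
    y ∈ D.Zb w (!σ) ↔ y ∉ D.Zb w σ := by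
  cases σ
  · show y ∈ D.Z w ↔ ¬ (y ∉ D.Z w)
    rw [not_not]
  · exact Iff.rfl

theorem mem_Zb_iff (w : QW D.S S' K) (σ : Bool) (y y' : X) :
    (y ∈ D.Zb w σ ↔ y' ∈ D.Zb w σ) ↔ (y ∈ D.Z w ↔ y' ∈ D.Z w) := by
  cases σ
  · exact not_iff_not
  · exact Iff.rfl

theorem mem_Z (w : QW D.S S' K) (y : X) : y ∈ D.Z w ↔ D.A (w.f' y) := Iff.rfl

theorem mem_ZC_not (σ : Bool) (y : G) : y ∈ D.ZC (!σ) ↔ y ∉ D.ZC σ := by
  cases σ
  · show D.A y ↔ ¬ ¬ D.A y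
    rw [not_not]
  · exact Iff.rfl

theorem mem_ZC_iff (σ : Bool) (y y' : G) :
    (y ∈ D.ZC σ ↔ y' ∈ D.ZC σ) ↔ (D.A y ↔ D.A y') := by
  cases σ
  · exact not_iff_not
  · exact Iff.rfl

theorem L_idw (h : 1 ≤ K) : D.L (QW.idw D.S h) = D.C := by
  ext y
  constructor
  · rintro ⟨x, hx, rfl⟩; exact hx
  · intro hy; exact ⟨y, hy, rfl⟩

theorem Zb_idw (h : 1 ≤ K) (σ : Bool) : D.Zb (QW.idw D.S h) σ = D.ZC σ := by
  cases σ
  · rfl
  · rfl

theorem f_mem_L (w : QW D.S S' K) {x : G} (hx : x ∈ D.E.edgeGroup) : w.f x ∈ D.L w := ⟨x, hx, rfl⟩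

/-! translates -/

theorem mem_L_tw (w : QW D.S S' K) (g : X) {k : G} (hk : k ∈ D.E.edgeGroup) (y : X) :
    y ∈ D.L (w.tw g k) ↔ g⁻¹ * y ∈ D.L w := by
  constructor
  · rintro ⟨x, hx, rfl⟩
    exact ⟨k * x, D.E.edgeGroup.mul_mem hk hx, by
      show g⁻¹ * (g * w.f (k * x)) = _
      rw [inv_mul_cancel_left]⟩
  · rintro ⟨x, hx, h⟩
    refine ⟨k⁻¹ * x, D.E.edgeGroup.mul_mem (D.E.edgeGroup.inv_mem hk) hx, ?_⟩
    show y = g * w.f (k * (k⁻¹ * x))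
    rw [mul_inv_cancel_left, ← h, mul_inv_cancel_left]

theorem mem_Z_tw (w : QW D.S S' K) (g : X) {k : G} (hk : k ∈ D.E.edgeGroup) (y : X) :
    y ∈ D.Z (w.tw g k) ↔ g⁻¹ * y ∈ D.Z w :=
  D.A_mul (D.E.edgeGroup.inv_mem hk) _

theorem mem_Zb_tw (w : QW D.S S' K) (g : X) {k : G} (hk : k ∈ D.E.edgeGroup) (σ : Bool) (y : X) :
    y ∈ D.Zb (w.tw g k) σ ↔ g⁻¹ * y ∈ D.Zb w σ := by
  cases σ
  · exact not_congr (D.mem_Z_tw w g hk y)
  · exact D.mem_Z_tw w g hk y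

theorem mem_nbhd_L_tw (w : QW D.S S' K) (g : X) {k : G} (hk : k ∈ D.E.edgeGroup) (R : ℕ) (y : X) :
    y ∈ nbhd S' R (D.L (w.tw g k)) ↔ g⁻¹ * y ∈ nbhd S' R (D.L w) := by
  constructor
  · rintro ⟨l, hl, hd⟩
    exact ⟨g⁻¹ * l, (D.mem_L_tw w g hk l).1 hl, by rw [wdist_mul_left]; exact hd⟩
  · rintro ⟨l, hl, hd⟩
    refine ⟨g * l, ?_, ?_⟩
    · rw [D.mem_L_tw w g hk, inv_mul_cancel_left]; exact hl
    · rw [← wdist_mul_left g, mul_inv_cancel_left] at hd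
      exact hd

/-! pulling back and pushing forward -/

theorem near_pull (w : QW D.S S' K) {R : ℕ} {y : X} (hy : y ∈ nbhd S' R (D.L w)) :
    w.f' y ∈ nbhd D.S (K * R + K + K) D.C := by
  obtain ⟨l, ⟨x, hx, rfl⟩, hd⟩ := hy
  refine ⟨x, hx, ?_⟩
  have e1 := w.hf'.1 y (w.f x)
  have e2 : K * wdist S' y (w.f x) ≤ K * R := Nat.mul_le_mul_left _ hd
  have e3 := wdist_triangle D.gS (w.f' y) (w.f' (w.f x)) x
  have e4 := w.h2 x
  omega

theorem near_push (gS' : Subgroup.closure S' = ⊤) (w : QW D.S S' K) {R : ℕ} {y : X}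
    (hy : w.f' y ∈ nbhd D.S R D.C) : y ∈ nbhd S' (K * R + K + K) (D.L w) := by
  obtain ⟨x, hx, hd⟩ := hy
  refine ⟨w.f x, ⟨x, hx, rfl⟩, ?_⟩
  have e1 := w.hf.1 (w.f' y) x
  have e2 : K * wdist D.S (w.f' y) x ≤ K * R := Nat.mul_le_mul_left _ hd
  have e3 := wdist_triangle gS' y (w.f (w.f' y)) (w.f x)
  have e4 := w.h1 y
  rw [wdist_comm gS'] at e4
  omega

theorem near_of_f (w : QW D.S S' K) {x : G} {R : ℕ} (hx : w.f x ∈ nbhd S' R (D.L w)) :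
    x ∈ nbhd D.S (K * R + K) D.C := by
  obtain ⟨l, ⟨z, hz, rfl⟩, hd⟩ := hx
  refine ⟨z, hz, ?_⟩
  refine (w.hf.2.1 x z).trans ?_
  gcongr

/-- points on different sides of a line are near the line -/
theorem exists_cr (gS' : Subgroup.closure S' = ⊤) (K : ℕ) : ∃ c : ℕ, ∀ (w : QW D.S S' K)
    (σ : Bool) (y y' : X) (d : ℕ), ¬ (y ∈ D.Zb w σ ↔ y' ∈ D.Zb w σ) → wdist S' y y' ≤ d →
    y ∈ nbhd S' (c * d + c) (D.L w) := by
  obtain ⟨r₀, h₀⟩ := D.exists_crossG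
  refine ⟨K * K + K * (K + r₀) + K + K, fun w σ y y' d hn hd => ?_⟩
  rw [mem_Zb_iff] at hn
  have e1 := h₀ (w.f' y) (w.f' y') hn
  refine nbhd_mono ?_ _ (D.near_push gS' w e1)
  have e2 := w.hf'.1 y y'
  have e3 : K * (wdist D.S (w.f' y) (w.f' y') + r₀) ≤ K * (K * wdist S' y y' + K + r₀) :=
    Nat.mul_le_mul_left _ (by omega)
  calc K * (wdist D.S (w.f' y) (w.f' y') + r₀) + K + K
      ≤ K * (K * wdist S' y y' + K + r₀) + K + K := by omega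
    _ ≤ K * (K * d + K + r₀) + K + K := by gcongr
    _ = K * K * d + (K * (K + r₀) + K + K) := by ring
    _ ≤ (K * K + K * (K + r₀) + K + K) * d + (K * K + K * (K + r₀) + K + K) := by
      have e4 : (K * K + K * (K + r₀) + K + K) * d =
        K * K * d + (K * (K + r₀) + K + K) * d := by ring
      have e5 := Nat.zero_le ((K * (K + r₀) + K + K) * d)
      have e6 := Nat.zero_le (K * K)
      omega

theorem exists_e (K : ℕ) : ∃ e : ℕ, ∀ (w : QW D.S S' K) (x : G), x ∉ nbhd D.S e D.C →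
    (w.f x ∈ D.Z w ↔ D.A x) := by
  obtain ⟨r₀, h₀⟩ := D.exists_crossG
  refine ⟨K + r₀, fun w x hx => ?_⟩
  rw [mem_Z]
  by_contra hn
  refine hx (nbhd_mono ?_ _ (h₀ x (w.f' (w.f x)) (fun h' => hn h'.symm)))
  have := w.h2 x
  rw [wdist_comm D.gS] at this
  omega

theorem exists_deepG (d : ℕ) : (∃ t, D.A t ∧ t ∉ nbhd D.S d D.C) ∧
    (∃ t, ¬ D.A t ∧ t ∉ nbhd D.S d D.C) := by
  have := exists_deep D.hS D.gS D.E d
  simp only [C_eq, A_iff_sd]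
  exact this

/-- near each point of a line there are points far from the line on both sides -/
theorem exists_r (S' : Set X) (K : ℕ) (d : ℕ) : ∃ r : ℕ,
    ∀ (w : QW D.S S' K) (σ : Bool), ∀ p ∈ D.L w,
    ∃ z, z ∈ D.Zb w σ ∧ wdist S' p z ≤ r ∧ z ∉ nbhd S' d (D.L w) := by
  obtain ⟨e, he⟩ := D.exists_e (S' := S') K
  obtain ⟨⟨t₁, ht₁, hn₁⟩, ⟨t₂, ht₂, hn₂⟩⟩ := D.exists_deepG (K * d + K + e)
  have key : ∀ t : G, t ∉ nbhd D.S (K * d + K + e) D.C → ∀ (w : QW D.S S' K),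
      ∀ x ∈ D.E.edgeGroup, (w.f (x * t) ∈ D.Z w ↔ D.A t) ∧
      wdist S' (w.f x) (w.f (x * t)) ≤ K * wlen D.S t + K ∧
      w.f (x * t) ∉ nbhd S' d (D.L w) := by
    intro t ht w x hx
    have hfar : ∀ R, R ≤ K * d + K + e → x * t ∉ nbhd D.S R D.C := by
      intro R hR hcon
      rw [D.mem_nbhd_C_mul hx] at hcon
      exact ht (nbhd_mono hR _ hcon)
    refine ⟨?_, ?_, ?_⟩
    · rw [he w (x * t) (hfar e (by omega)), D.A_mul hx]
    · refine (w.hf.1 _ _).trans (le_of_eq ?_)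
      unfold wdist
      rw [inv_mul_cancel_left]
    · intro hcon
      exact hfar (K * d + K) (by omega) (D.near_of_f w hcon)
  refine ⟨max (K * wlen D.S t₁ + K) (K * wlen D.S t₂ + K), fun w σ p hp => ?_⟩
  obtain ⟨x, hx, rfl⟩ := hp
  obtain ⟨a1, a2, a3⟩ := key t₁ hn₁ w x hx
  obtain ⟨b1, b2, b3⟩ := key t₂ hn₂ w x hx
  cases σ
  · exact ⟨_, fun h' => ht₂ (b1.1 h'), b2.trans (le_max_right _ _), b3⟩
  · exact ⟨_, a1.2 ht₁, a2.trans (le_max_left _ _), a3⟩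

/-- the boundary of `M` is near `L` -/
def BD (S' : Set X) (r : ℕ) (M L : Set X) : Prop :=
  ∀ y ∈ M, ∀ y', y' ∉ M → y ∈ nbhd S' (r * wdist S' y y' + r) L

theorem exists_ρ (gS' : Subgroup.closure S' = ⊤) (K r : ℕ) : ∃ ρ : ℕ, ∀ (w : QW D.S S' K)
    (M : Set X), BD S' r M (D.L w) →
    (∃ y ∈ M, y ∉ nbhd S' ρ (D.L w)) → ∀ p ∈ D.L w, ∃ y ∈ M, wdist S' p y ≤ ρ := by
  obtain ⟨ρ₁, hρ₁⟩ := exists_full D.hS D.gS D.hone D.E.edgeGroup D.hC
    (K * r * K + (K * (r * K + r) + K))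
  refine ⟨(r * K + r) + (K * ρ₁ + K + K), fun w M hM hdeep p hp => ?_⟩
  obtain ⟨x₀, hx₀, rfl⟩ := hp
  obtain ⟨y, hyM, hy⟩ := hdeep
  have h1 := hρ₁ {x | w.f x ∈ M} ?_ ?_ x₀ hx₀
  · obtain ⟨x, hx, hd⟩ := h1
    refine ⟨w.f x, hx, ?_⟩
    have e1 := w.hf.1 x₀ x
    have e3 : K * wdist D.S x₀ x ≤ K * ρ₁ := Nat.mul_le_mul_left _ hd
    omega
  · intro x hx x' hx'
    have e1 := hM _ hx _ hx'
    have e2 := D.near_of_f w e1
    refine nbhd_mono ?_ _ e2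
    have e3 := w.hf.1 x x'
    calc K * (r * wdist S' (w.f x) (w.f x') + r) + K
        ≤ K * (r * (K * wdist D.S x x' + K) + r) + K := by gcongr
      _ = K * r * K * wdist D.S x x' + (K * (r * K + r) + K) := by ring
      _ ≤ (K * r * K + (K * (r * K + r) + K)) * wdist D.S x x' +
          (K * r * K + (K * (r * K + r) + K)) := by
          have e4 : 0 ≤ (K * (r * K + r) + K) * wdist D.S x x' := Nat.zero_le _
          have e5 : 0 ≤ K * r * K := Nat.zero_le _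
          rw [add_mul]
          omega
  · refine ⟨w.f' y, ?_, ?_⟩
    · show w.f (w.f' y) ∈ M
      by_contra hn
      refine hy (nbhd_mono ?_ _ (hM y hyM _ hn))
      have e1 := w.h1 y
      rw [wdist_comm gS'] at e1
      have e2 : r * wdist S' y (w.f (w.f' y)) ≤ r * K := Nat.mul_le_mul_left _ e1
      omega
    · intro hcon
      exact hy (nbhd_mono (by omega) _ (D.near_push gS' w hcon))

/-- for each pair of walls, the second line lies on one side of the first -/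
theorem exists_R (gS' : Subgroup.closure S' = ⊤) (K : ℕ) : ∃ R : ℕ, ∀ (w w' : QW D.S S' K),
    ∃ σ, ∀ y ∈ D.L w', y ∉ nbhd S' R (D.L w) → y ∈ D.Zb w σ := by
  obtain ⟨R, hR⟩ := D.nc (Kc K)
  refine ⟨K * R + K + K, fun w w' => ?_⟩
  rcases hR _ (QW.comp D.gS w w').hf with h | h
  · refine ⟨true, ?_⟩
    rintro y ⟨x, hx, rfl⟩ hn
    exact h x hx (fun h3 => hn (D.near_push gS' w h3))
  · refine ⟨false, ?_⟩
    rintro y ⟨x, hx, rfl⟩ hn
    exact h x hx (fun h3 => hn (D.near_push gS' w h3))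

/-- `w'` lies (outside the `R`-neighbourhood of the line of `w`) on the side `σ` of `w` -/
def On (w w' : QW D.S S' K) (R : ℕ) (σ : Bool) : Prop :=
  ∀ y ∈ D.L w', y ∉ nbhd S' R (D.L w) → y ∈ D.Zb w σ

theorem On.mono {w w' : QW D.S S' K} {R R' : ℕ} {σ : Bool} (h : D.On w w' R σ) (hR : R ≤ R') :
    D.On w w' R' σ :=
  fun y hy hn => h y hy (fun h' => hn (nbhd_mono hR _ h'))

/-- the opposite corner has its boundary near the first line -/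
theorem corner (gS' : Subgroup.closure S' = ⊤) (K R₀ : ℕ) : ∃ r : ℕ,
    ∀ (w w' : QW D.S S' K) (σ σ' : Bool), D.On w w' R₀ σ →
    BD S' r ((D.Zb w σ)ᶜ ∩ (D.Zb w' σ')ᶜ) (D.L w) := by
  obtain ⟨c, hc⟩ := D.exists_cr gS' K
  refine ⟨c * c + c + R₀, fun w w' σ σ' hP y hy y' hy' => ?_⟩
  have e0 : (c * c + c + R₀) * wdist S' y y' = c * c * wdist S' y y' +
      c * wdist S' y y' + R₀ * wdist S' y y' := by ring
  by_cases hy1 : y' ∈ D.Zb w σ
  · refine nbhd_mono ?_ _ (hc w σ y y' _ (fun h' => hy.1 (h'.2 hy1)) le_rfl)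
    rw [e0]
    have := Nat.zero_le (c * c * wdist S' y y')
    have := Nat.zero_le (R₀ * wdist S' y y')
    omega
  · have hy2 : y' ∈ D.Zb w' σ' := by
      by_contra hn
      exact hy' ⟨hy1, hn⟩
    obtain ⟨l, hl, hd⟩ := hc w' σ' y y' _ (fun h' => hy.2 (h'.2 hy2)) le_rfl
    by_cases hln : l ∈ nbhd S' R₀ (D.L w)
    · refine nbhd_mono ?_ _ (mem_nbhd_of_dist gS' hln hd)
      rw [e0]
      have := Nat.zero_le (c * c * wdist S' y y')
      have := Nat.zero_le (R₀ * wdist S' y y')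
      have := Nat.zero_le (c * c)
      omega
    · have hlU := hP l hl hln
      refine nbhd_mono ?_ _ (hc w σ y l _ (fun h' => hy.1 (h'.2 hlU)) hd)
      rw [e0]
      have e1 : c * (c * wdist S' y y' + c) + c =
        c * c * wdist S' y y' + c * c + c := by ring
      rw [e1]
      have := Nat.zero_le (c * wdist S' y y')
      have := Nat.zero_le (R₀ * wdist S' y y')
      omega

/-- lines with a deep corner away from both lines are close -/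
theorem near_of_corner (gS' : Subgroup.closure S' = ⊤) (K R₀ : ℕ) : ∃ ρ R : ℕ,
    ∀ (w w' : QW D.S S' K) (σ σ' : Bool), D.On w w' R₀ σ → D.On w' w R₀ σ' →
    (∃ z, z ∉ D.Zb w σ ∧ z ∉ D.Zb w' σ' ∧ z ∉ nbhd S' ρ (D.L w)) →
    D.L w ⊆ nbhd S' R (D.L w') := by
  obtain ⟨c, hc⟩ := D.exists_cr gS' K
  obtain ⟨r, hr⟩ := D.corner gS' K R₀
  obtain ⟨ρ, hρ⟩ := D.exists_ρ gS' K r
  refine ⟨ρ, R₀ + (c * ρ + c), fun w w' σ σ' hP' hP hz p hp => ?_⟩
  obtain ⟨z, hz1, hz2, hz3⟩ := hz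
  obtain ⟨m, hm, hd⟩ := hρ w _ (hr w w' σ σ' hP') ⟨z, ⟨hz1, hz2⟩, hz3⟩ p hp
  by_cases hn : p ∈ nbhd S' R₀ (D.L w')
  · exact nbhd_mono (by omega) _ hn
  · have hpU := hP p hp hn
    exact nbhd_mono (by omega) _ (hc w' σ' p m _ (fun h' => hm.2 (h'.1 hpU)) hd)

end Sp

end Pool.Agent.QIS
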