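import Pool.Agent.H67.W3.A
import Pool.Agent.H67.W3.OneD

/-!
# Lines that follow the edge group
-/

set_option autoImplicit false

namespace Pool.Agent.QIS

namespace Sp

variable {G : Type} [Group G] (D : Sp G)

theorem nearc_wdist_zpow (s s' : ℤ) :
    wdist D.S (D.c ^ s) (D.c ^ s') = wlen D.S (D.c ^ (s' - s)) := by
  unfold wdist
  congr 1
  rw [← zpow_neg, ← zpow_add]
  congr 1
  ring

theorem exists_N (X : ℕ) : ∃ N : ℕ, ∀ s s' : ℤ, wdist D.S (D.c ^ s) (D.c ^ s') ≤ X →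
    |s - s'| ≤ N := by
  have hfin : {j : ℤ | wlen D.S (D.c ^ j) ≤ X}.Finite := by
    have h1 : {x : G | wlen D.S x ≤ X}.Finite := (properLen_wlen D.hS D.gS).fin _
    exact Set.Finite.preimage ((q2_zpow_inj D.hinf).injOn) h1
  obtain ⟨N, hN⟩ := (hfin.image (fun j : ℤ => j.natAbs)).bddAbove
  refine ⟨N, fun s s' h => ?_⟩
  rw [nearc_wdist_zpow] at h
  have h5 : (s' - s).natAbs ≤ N := hN ⟨s' - s, h, rfl⟩
  have h6 : |s - s'| = ((s' - s).natAbs : ℤ) := by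
    rw [abs_sub_comm, Int.abs_eq_natAbs]
  rw [h6]
  exact_mod_cast h5

theorem nearc_wlen_pow (n : ℕ) : wlen D.S (D.c ^ n) ≤ wlen D.S D.c * n := by
  induction n with
  | zero => rw [pow_zero, q6_one]; exact Nat.zero_le _
  | succ n ih =>
    rw [pow_succ]
    refine (q6_mul D.gS _ _).trans ?_
    rw [Nat.mul_succ]
    omega

theorem nearc_wlen_zpow (j : ℤ) : wlen D.S (D.c ^ j) ≤ wlen D.S D.c * j.natAbs := by
  rcases Int.natAbs_eq j with h | h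
  · rw [h, zpow_natCast, Int.natAbs_natCast]
    exact D.nearc_wlen_pow _
  · rw [h, zpow_neg, zpow_natCast, q6_inv D.gS, Int.natAbs_neg, Int.natAbs_natCast]
    exact D.nearc_wlen_pow _

theorem nearc_wdist_le {s s' : ℤ} {Y : ℕ} (h : |s - s'| ≤ Y) :
    wdist D.S (D.c ^ s) (D.c ^ s') ≤ wlen D.S D.c * Y := by
  rw [nearc_wdist_zpow]
  refine (D.nearc_wlen_zpow _).trans (Nat.mul_le_mul_left _ ?_)
  rw [abs_sub_comm, Int.abs_eq_natAbs] at h
  exact_mod_cast h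

/-- a point of a line is near the image of a power of `c` -/
theorem nearc_L {K : ℕ} (w : QW D.S D.S K) {p : G} (hp : p ∈ D.L w) :
    ∃ i : ℤ, wdist D.S p (w.f (D.c ^ i)) ≤ K * D.Dc + K := by
  obtain ⟨x, hx, rfl⟩ := hp
  obtain ⟨i, hi⟩ := D.hcov x hx
  exact ⟨i, (w.hf.1 _ _).trans (Nat.add_le_add_right (Nat.mul_le_mul_left _ hi) _)⟩

/-- the constants of the tracking sequence -/
theorem nearc_track (K T' : ℕ) : ∃ (J : ℕ) (N : ℕ → ℕ), ∀ (w : QW D.S D.S K) (v : ℤ → ℤ)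
    (P : ℤ → Prop), (∀ s, P s → wdist D.S (D.c ^ s) (w.f (D.c ^ v s)) ≤ T') →
    (∀ t, P t → P (t + 1) → |v (t + 1) - v t| ≤ J) ∧
    (∀ (t t' : ℤ) (Y : ℕ), P t → P t' → |v t - v t'| ≤ Y → |t - t'| ≤ N Y) := by
  choose NC hNC using D.exists_N
  refine ⟨NC (K * (T' + wlen D.S D.c + T') + K),
    fun Y => NC (T' + (K * (wlen D.S D.c * Y) + K) + T'), fun w v P hv => ⟨?_, ?_⟩⟩
  · intro t h1 h2
    apply hNC
    refine (w.hf.2.1 _ _).trans (Nat.add_le_add_right (Nat.mul_le_mul_left _ ?_) _)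
    have e1 := hv _ h1
    have e2 := hv _ h2
    have e3 : wdist D.S (D.c ^ (t + 1)) (D.c ^ t) ≤ wlen D.S D.c := by
      have := D.nearc_wdist_le (s := t + 1) (s' := t) (Y := 1) (by simp)
      rwa [mul_one] at this
    have e4 := wdist_triangle D.gS (w.f (D.c ^ v (t + 1))) (D.c ^ (t + 1)) (w.f (D.c ^ v t))
    have e5 := wdist_triangle D.gS (D.c ^ (t + 1)) (D.c ^ t) (w.f (D.c ^ v t))
    rw [wdist_comm D.gS] at e2
    omega
  · intro t t' Y h1 h2 h3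
    apply hNC
    have e1 := hv _ h1
    have e2 := hv _ h2
    have e3 := w.hf.1 (D.c ^ v t) (D.c ^ v t')
    have e4 : K * wdist D.S (D.c ^ v t) (D.c ^ v t') ≤ K * (wlen D.S D.c * Y) :=
      Nat.mul_le_mul_left _ (D.nearc_wdist_le h3)
    have e5 := wdist_triangle D.gS (D.c ^ t) (w.f (D.c ^ v t)) (D.c ^ t')
    have e6 := wdist_triangle D.gS (w.f (D.c ^ v t)) (w.f (D.c ^ v t')) (D.c ^ t')
    rw [wdist_comm D.gS] at e2
    omega

/-- if `w` follows `C` along a long segment about `c ^ s`, then the points of its line near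
`c ^ s` are near `C` -/
theorem near_line (K T : ℕ) : ∃ T₃ : ℕ, ∀ Q : ℕ, ∃ B : ℕ, ∀ (w : QW D.S D.S K) (s : ℤ),
    (∀ s' : ℤ, |s' - s| ≤ B → D.Near w T s') → ∀ p ∈ D.L w, wdist D.S (D.c ^ s) p ≤ Q →
    p ∈ nbhd D.S T₃ D.C := by
  choose NC hNC using D.exists_N
  obtain ⟨T', hT'⟩ : ∃ T', T' = T + (K * D.Dc + K) := ⟨_, rfl⟩
  obtain ⟨J, N, hJN⟩ := D.nearc_track K T'
  refine ⟨(K * D.Dc + K) + (K * (wlen D.S D.c * J) + K) + T', fun Q => ?_⟩
  obtain ⟨B, hB⟩ := oneD_cover J N (NC (K * (K * D.Dc + K + Q + T') + K))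
  refine ⟨B, fun w s hN p hp hQ => ?_⟩
  have hv : ∀ s' : ℤ, ∃ i : ℤ, |s' - s| ≤ B → wdist D.S (D.c ^ s') (w.f (D.c ^ i)) ≤ T' := by
    intro s'
    by_cases h : |s' - s| ≤ B
    · obtain ⟨l, hl, hd⟩ := hN s' h
      obtain ⟨i, hi⟩ := D.nearc_L w hl
      refine ⟨i, fun _ => ?_⟩
      have := wdist_triangle D.gS (D.c ^ s') l (w.f (D.c ^ i))
      omega
    · exact ⟨0, fun h' => absurd h' h⟩
  choose v hv using hv
  obtain ⟨h1, h2⟩ := hJN w v (fun t => |t - s| ≤ B) hv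
  obtain ⟨i, hi⟩ := D.nearc_L w hp
  have hX : |i - v s| ≤ NC (K * (K * D.Dc + K + Q + T') + K) := by
    apply hNC
    refine (w.hf.2.1 _ _).trans (Nat.add_le_add_right (Nat.mul_le_mul_left _ ?_) _)
    have e0 := hv s (by simp)
    have e1 := wdist_triangle D.gS (w.f (D.c ^ i)) p (w.f (D.c ^ v s))
    have e2 := wdist_triangle D.gS p (D.c ^ s) (w.f (D.c ^ v s))
    rw [wdist_comm D.gS] at hi hQ
    omega
  obtain ⟨t, ht, hit⟩ := hB v s (fun t a b => h1 t a b) (fun t t' Y a b c => h2 t t' Y a b c) i hX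
  refine ⟨D.c ^ t, D.zpow_mem t, ?_⟩
  have e1 := hv t ht
  have e2 := w.hf.1 (D.c ^ i) (D.c ^ v t)
  have e3 : K * wdist D.S (D.c ^ i) (D.c ^ v t) ≤ K * (wlen D.S D.c * J) :=
    Nat.mul_le_mul_left _ (D.nearc_wdist_le hit)
  have e4 := wdist_triangle D.gS p (w.f (D.c ^ i)) (D.c ^ t)
  have e5 := wdist_triangle D.gS (w.f (D.c ^ i)) (w.f (D.c ^ v t)) (D.c ^ t)
  rw [wdist_comm D.gS] at e1
  omega

/-- the right rays of `C` and of `w` are close -/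
def RC {K : ℕ} (w : QW D.S D.S K) (T : ℕ) : Prop :=
  (∀ t : ℕ, ∃ t' : ℕ, wdist D.S (w.f (D.c ^ t)) (D.c ^ t') ≤ T) ∧
  (∀ t : ℕ, ∃ t' : ℕ, wdist D.S (D.c ^ t) (w.f (D.c ^ t')) ≤ T)

/-- if `w` is close to the identity and the right ray of `C` is near the line of `w`, then the right
rays are close -/
theorem right_close (K T : ℕ) : ∃ T' n : ℕ, ∀ w : QW D.S D.S K, D.Cl w n K →
    (∀ s : ℤ, 0 ≤ s → D.Near w T s) → D.RC w T' := by
  obtain ⟨T₁, hT₁⟩ : ∃ T₁, T₁ = T + (K * D.Dc + K) := ⟨_, rfl⟩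
  obtain ⟨J, N, hJN⟩ := D.nearc_track K T₁
  obtain ⟨n, hn⟩ := oneD_right J N
  refine ⟨(K * (wlen D.S D.c * J) + K) + T₁, wlen D.S D.c * n, fun w hCl hN => ?_⟩
  have hv : ∀ s : ℤ, ∃ i : ℤ, (0 ≤ s → s ≤ n → i = s) ∧
      (0 ≤ s → wdist D.S (D.c ^ s) (w.f (D.c ^ i)) ≤ T₁) := by
    intro s
    by_cases h0 : 0 ≤ s
    · by_cases h1 : s ≤ n
      · refine ⟨s, fun _ _ => rfl, fun _ => ?_⟩
        have e1 : wdist D.S 1 (D.c ^ s) ≤ wlen D.S D.c * n := by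
          have := D.nearc_wdist_le (s := 0) (s' := s) (Y := n) (by
            rw [zero_sub, abs_neg, abs_of_nonneg h0]; exact h1)
          rwa [zpow_zero] at this
        have e2 := hCl _ e1
        rw [wdist_comm D.gS] at e2
        omega
      · obtain ⟨l, hl, hd⟩ := hN s h0
        obtain ⟨i, hi⟩ := D.nearc_L w hl
        refine ⟨i, fun _ h => absurd h h1, fun _ => ?_⟩
        have := wdist_triangle D.gS (D.c ^ s) l (w.f (D.c ^ i))
        omega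
    · exact ⟨0, fun h => absurd h h0, fun h => absurd h h0⟩
  choose v hv1 hv2 using hv
  obtain ⟨h1, h2⟩ := hJN w v (fun t => 0 ≤ t) hv2
  obtain ⟨h3, h4⟩ := hn v (fun s hs => h1 s hs (by omega))
    (fun s s' Y a b c => h2 s s' Y a b c) hv1
  refine ⟨fun t => ?_, fun t => ?_⟩
  · obtain ⟨s, hs0, hs⟩ := h4 t (Int.natCast_nonneg t)
    refine ⟨s.toNat, ?_⟩
    have e0 : D.c ^ s.toNat = D.c ^ s := by
      rw [← zpow_natCast, Int.toNat_of_nonneg hs0]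
    rw [e0]
    have e1 := hv2 s hs0
    have e2 := w.hf.1 (D.c ^ (t : ℤ)) (D.c ^ v s)
    have e3 : K * wdist D.S (D.c ^ (t : ℤ)) (D.c ^ v s) ≤ K * (wlen D.S D.c * J) :=
      Nat.mul_le_mul_left _ (D.nearc_wdist_le (by rwa [abs_sub_comm]))
    rw [zpow_natCast] at e2 e3
    have e4 := wdist_triangle D.gS (w.f (D.c ^ t)) (w.f (D.c ^ v s)) (D.c ^ s)
    rw [wdist_comm D.gS] at e1
    omega
  · refine ⟨(v t).toNat, ?_⟩
    have e0 : D.c ^ (v t).toNat = D.c ^ v t := by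
      rw [← zpow_natCast, Int.toNat_of_nonneg (h3 t (Int.natCast_nonneg t))]
    rw [e0]
    have e1 := hv2 t (Int.natCast_nonneg t)
    rw [zpow_natCast] at e1
    omega

end Sp

end Pool.Agent.QIS
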