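import Pool.Agent.H67.W2.Full
import Pool.Agent.H67.Q.Perm2

/-!
# Third project of MP_bbdce3_al: an uncrossed edge group is enough. Definitions.

`Sp G`: a one-ended group with a splitting over a two-ended group `C` that no quasi-isometry moves
across itself. `QW S S' K`: a quasi-isometry `f` with a quasi-inverse `f'`. The wall of `w : QW` is
the line `D.L w = f(C)` with the sides `D.Z w` and its complement.
-/

set_option autoImplicit false

namespace Pool.Agent.QIS

open MulAction

/-- a one-ended group with a splitting over an uncrossed two-ended group, and a generator of a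
subgroup of finite index of the edge group -/
structure Sp (G : Type) [Group G] where
  S : Set G
  hS : S.Finite
  gS : Subgroup.closure S = ⊤
  hone : OneEnded S
  E : Splitting G
  hC : TwoEnded E.edgeGroup
  nc : NotCrossed S E E.edgeGroup
  c : G
  hc : c ∈ E.edgeGroup
  hinf : ∀ n : ℕ, 0 < n → c ^ n ≠ 1
  Dc : ℕ
  hcov : ∀ x ∈ E.edgeGroup, ∃ n : ℤ, wdist S x (c ^ n) ≤ Dc

/-- a quasi-isometry with a quasi-inverse -/
structure QW {G X : Type} [Group G] [Group X] (S : Set G) (S' : Set X) (K : ℕ) where
  f : G → X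
  f' : X → G
  hf : IsQI S S' K f
  hf' : IsQI S' S K f'
  h1 : ∀ y, wdist S' (f (f' y)) y ≤ K
  h2 : ∀ x, wdist S (f' (f x)) x ≤ K

namespace Sp

variable {G : Type} [Group G] (D : Sp G)

/-- the same with the inverse generator -/
def flip : Sp G where
  S := D.S
  hS := D.hS
  gS := D.gS
  hone := D.hone
  E := D.E
  hC := D.hC
  nc := D.nc
  c := D.c⁻¹
  hc := D.E.edgeGroup.inv_mem D.hc
  hinf := by
    intro n hn h
    exact D.hinf n hn (by rwa [inv_pow, inv_eq_one] at h)
  Dc := D.Dc
  hcov := by
    intro x hx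
    obtain ⟨n, hn⟩ := D.hcov x hx
    exact ⟨-n, by rw [inv_zpow, zpow_neg, inv_inv]; exact hn⟩

/-- the edge group as a set -/
def C : Set G := (D.E.edgeGroup : Set G)

/-- a point of `G` is on the side of `a` -/
def A (g : G) : Prop := side D.E.T D.E.a D.E.b (g • D.E.a)

variable {X : Type} [Group X] {S' : Set X} {K : ℕ}

/-- the line of a wall -/
def L (w : QW D.S S' K) : Set X := {y | ∃ x ∈ D.E.edgeGroup, y = w.f x}

/-- the half-space of a wall -/
def Z (w : QW D.S S' K) : Set X := {y | D.A (w.f' y)}

/-- the two half-spaces -/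
def Zb (w : QW D.S S' K) (σ : Bool) : Set X := if σ then D.Z w else (D.Z w)ᶜ

/-- the two half-spaces of `G` -/
def ZC (σ : Bool) : Set G := if σ then {g | D.A g} else {g | ¬ D.A g}

/-- the line passes within `T` of `c ^ s` -/
def Near {K : ℕ} (w : QW D.S D.S K) (T : ℕ) (s : ℤ) : Prop := D.c ^ s ∈ nbhd D.S T (D.L w)

/-- `w` is close to the identity on the ball of radius `n` -/
def Cl {K : ℕ} (w : QW D.S D.S K) (n κ : ℕ) : Prop :=
  ∀ x, wdist D.S 1 x ≤ n → wdist D.S (w.f x) x ≤ κ

end Sp

end Pool.Agent.QIS
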