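import Pool.Agent.H67.W3.Agree

/-!
# Positions of lines: sides, comparison
-/

set_option autoImplicit false

namespace Pool.Agent.QIS

namespace Sp

variable {G : Type} [Group G] (D : Sp G)

/-- `C` lies (outside the `R`-neighbourhood of the line) on the side `!σ` of `w` -/
def Ab {K : ℕ} (w : QW D.S D.S K) (R : ℕ) (σ : Bool) : Prop :=
  ∀ x ∈ D.C, x ∉ nbhd D.S R (D.L w) → x ∉ D.Zb w σ

/-- the line of `w` lies (outside the `R`-neighbourhood of `C`) on the side `σ` of `C` -/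
def Up {K : ℕ} (w : QW D.S D.S K) (R : ℕ) (σ : Bool) : Prop :=
  ∀ y ∈ D.L w, y ∉ nbhd D.S R D.C → y ∈ D.ZC σ

/-- a line which is close to the identity in the centre and somewhere far from `C` is on the side
`σ` of `C`, and `C` is on the side `!σ` of the line -/
theorem sides (K : ℕ) (hK : 1 ≤ K) : ∃ R T₀ n : ℕ, ∀ w : QW D.S D.S K, D.Cl w n K →
    (∀ s : ℤ, D.Near w T₀ s) ∨ ∃ σ, D.Ab w R σ ∧ D.Up w R σ := by
  obtain ⟨R₁, hR₁⟩ := D.exists_R D.gS K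
  obtain ⟨ρ, R₆, hc⟩ := D.near_of_corner D.gS K R₁
  obtain ⟨z, n, hz, hw⟩ := D.center K ρ
  refine ⟨R₁, R₆, n, fun w hn => ?_⟩
  obtain ⟨σ, hσ⟩ := hR₁ (QW.idw D.S hK) w
  obtain ⟨τ, hτ⟩ := hR₁ w (QW.idw D.S hK)
  by_cases h : τ = σ
  · left
    subst h
    have key := hc (QW.idw D.S hK) w τ τ hσ hτ ⟨z (!τ), ?_, ?_, ?_⟩
    · intro s
      refine key ?_
      rw [D.L_idw hK]
      exact D.zpow_mem s
    · rw [D.Zb_idw hK, ← D.mem_ZC_not]
      exact (hz (!τ)).1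
    · rw [← D.mem_Zb_not]
      exact (hw w hn (!τ)).1
    · rw [D.L_idw hK]
      exact (hz (!τ)).2
  · right
    have hτ' : τ = !σ := by
      cases τ <;> cases σ <;> simp_all
    refine ⟨σ, ?_, ?_⟩
    · intro x hx hxn
      have h1 := hτ x (by rw [D.L_idw hK]; exact hx) hxn
      rw [hτ'] at h1
      exact (D.mem_Zb_not w σ x).1 h1
    · intro y hy hyn
      have h1 := hσ y hy (by rw [D.L_idw hK]; exact hyn)
      rwa [D.Zb_idw hK] at h1

/-- two lines on the same side of `C` with a common deep point beyond them are comparable -/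
theorem dich (K R : ℕ) : ∃ (f : ℕ → ℕ) (ρ : ℕ), (∀ T, T ≤ f T) ∧
    ∀ (w w' : QW D.S D.S K) (σ : Bool), D.Ab w R σ → D.Ab w' R σ →
      (∃ z, z ∈ D.Zb w σ ∧ z ∈ D.Zb w' σ ∧ z ∉ nbhd D.S ρ (D.L w)) →
      (∀ (s : ℤ) (T : ℕ), ¬ D.Near w (f T) s → ¬ D.Near w' T s) ∨
      (∀ (s : ℤ) (T : ℕ), ¬ D.Near w' (f T) s → ¬ D.Near w T s) := by
  obtain ⟨R₀, hR₀⟩ := D.exists_R D.gS K
  obtain ⟨ρ, R₆, hc⟩ := D.near_of_corner D.gS K R₀
  obtain ⟨c₁, hc₁⟩ := D.exists_cr D.gS K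
  have aux : ∀ (w w' : QW D.S D.S K) (σ : Bool), D.Ab w R σ → D.On w w' R₀ σ →
      ∀ (s : ℤ) (T : ℕ), ¬ D.Near w (T + R + R₀ + (c₁ * T + c₁) + R₆) s → ¬ D.Near w' T s := by
    rintro w w' σ hAb hOn s T hfar ⟨p, hp, hd⟩
    have h1 : D.c ^ s ∉ D.Zb w σ :=
      hAb _ (D.zpow_mem s) (fun h => hfar (nbhd_mono (by omega) _ h))
    have h2 : p ∉ nbhd D.S R₀ (D.L w) := fun h =>
      hfar (nbhd_mono (by omega) _ (mem_nbhd_of_dist D.gS h hd))
    have h3 : p ∈ D.Zb w σ := hOn p hp h2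
    exact hfar (nbhd_mono (by omega) _ (hc₁ w σ _ p T (fun h => h1 (h.2 h3)) hd))
  refine ⟨fun T => T + R + R₀ + (c₁ * T + c₁) + R₆, ρ,
    fun T => by show T ≤ T + R + R₀ + (c₁ * T + c₁) + R₆; omega,
    fun w w' σ hAb hAb' hz => ?_⟩
  obtain ⟨τ, hτ⟩ := hR₀ w w'
  obtain ⟨τ', hτ'⟩ := hR₀ w' w
  by_cases h : τ = σ
  · subst h
    exact Or.inl (aux w w' τ hAb hτ)
  · by_cases h' : τ' = σ
    · subst h'
      exact Or.inr (aux w' w τ' hAb' hτ')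
    · right
      have e : τ = !σ := by cases τ <;> cases σ <;> simp_all
      have e' : τ' = !σ := by cases τ' <;> cases σ <;> simp_all
      subst e
      subst e'
      obtain ⟨z, hz1, hz2, hz3⟩ := hz
      have key := hc w w' (!σ) (!σ) hτ hτ'
        ⟨z, fun h4 => (D.mem_Zb_not w σ z).1 h4 hz1,
          fun h4 => (D.mem_Zb_not w' σ z).1 h4 hz2, hz3⟩
      rintro s T hfar ⟨p, hp, hd⟩
      exact hfar (nbhd_mono (by
        show T + R₆ ≤ T + R + R₀ + (c₁ * T + c₁) + R₆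
        omega) _ (mem_nbhd_of_dist D.gS (key hp) hd))

end Sp

end Pool.Agent.QIS
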