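import Pool.Agent.H67.W3.A

/-!
# Three disjoint half-spaces near each point
-/

set_option autoImplicit false

namespace Pool.Agent.QIS

open MulAction

/-- some vertex of the tree has three neighbours -/
def Branch {G : Type} [Group G] (E : Splitting G) : Prop :=
  ∃ v x y z : E.V, E.T.Adj v x ∧ E.T.Adj v y ∧ E.T.Adj v z ∧ x ≠ y ∧ y ≠ z ∧ x ≠ z

/-- the half-tree with sign -/
def HT {G : Type} [Group G] (E : Splitting G) (k : G) (σ : Bool) (v : E.V) : Prop :=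
  if σ then sd E k v else ¬ sd E k v

private theorem t3_ht {G : Type} [Group G] (E : Splitting G) {v x : E.V} (h : E.T.Adj v x) :
    ∃ (k : G) (σ : Bool), ∀ u, HT E k σ u ↔ ¬ side E.T v x u := by
  obtain ⟨k, ⟨h1, h2⟩ | ⟨h1, h2⟩⟩ := E.edge_trans h
  · refine ⟨k, false, fun u => ?_⟩
    show ¬ sd E k u ↔ _
    unfold sd
    rw [h1, h2]
  · refine ⟨k, true, fun u => ?_⟩
    show sd E k u ↔ _
    unfold sd
    rw [h1, h2]
    exact side_swap E.tree h u

private theorem t3_disj {V : Type} {T : SimpleGraph V} (hT : T.IsTree) {v x y : V}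
    (hx : T.Adj v x) (hy : T.Adj v y) (hne : x ≠ y) (u : V) :
    ¬ (¬ side T v x u ∧ ¬ side T v y u) := by
  rintro ⟨h1, h2⟩
  have e0 : ∀ {p q : V}, T.Adj v p → T.Adj v q → p ≠ q → s(v, p) ≠ s(v, q) := by
    intro p q _ _ hpq h
    rcases Sym2.eq_iff.1 h with ⟨_, h5⟩ | ⟨h4, h5⟩
    · exact hpq h5
    · exact hpq (h5.trans h4)
  have e1 : side T v x y := (side_adj hy (e0 hy hx (Ne.symm hne))).1 (side_self v x)
  have e2 : side T v y x := (side_adj hx (e0 hx hy hne)).1 (side_self v y)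
  have e3 := side_beyond hT hy.symm hx e1 (fun h => (side_swap hT hy x).1 h e2)
    (by rw [Sym2.eq_swap]; exact e0 hy hx (Ne.symm hne))
  exact e3.2 u h1 ((side_swap hT hy u).2 h2)

/-- three pairwise disjoint half-trees -/
theorem exists_three {G : Type} [Group G] (E : Splitting G) (hv : Branch E) :
    ∃ (k : Fin 3 → G) (σ : Fin 3 → Bool), ∀ i j, i ≠ j → ∀ v : E.V,
      ¬ (HT E (k i) (σ i) v ∧ HT E (k j) (σ j) v) := by
  obtain ⟨v, x, y, z, hx, hy, hz, hxy, hyz, hxz⟩ := hv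
  have hadj : ∀ i : Fin 3, E.T.Adj v (![x, y, z] i) := by
    intro i
    fin_cases i
    · exact hx
    · exact hy
    · exact hz
  have hinj : ∀ i j : Fin 3, i ≠ j → (![x, y, z] : Fin 3 → E.V) i ≠ ![x, y, z] j := by
    intro i j hij
    fin_cases i <;> fin_cases j <;> first | exact absurd rfl hij | skip
    · exact hxy
    · exact hxz
    · exact hxy.symm
    · exact hyz
    · exact hxz.symm
    · exact hyz.symm
  choose k σ hk using fun i => t3_ht E (hadj i)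
  refine ⟨k, σ, fun i j hij u => ?_⟩
  rw [hk i u, hk j u]
  exact t3_disj E.tree (hadj i) (hadj j) (hinj i j hij) u

/-- the base vertex of an edge of the family is in none of the other half-trees -/
private theorem t3_base {G : Type} [Group G] (E : Splitting G) {k : Fin 3 → G}
    {σ : Fin 3 → Bool} (h : ∀ i j, i ≠ j → ∀ v : E.V,
      ¬ (HT E (k i) (σ i) v ∧ HT E (k j) (σ j) v)) {i j : Fin 3} (hij : i ≠ j) :
    ¬ HT E (k i) (σ i) (k j • E.a) := by
  intro hi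
  have hne : ∀ l : Fin 3, HT E (k l) (σ l) (k l • (if σ l then E.a else E.b)) := by
    intro l
    cases σ l
    · exact not_sd_b E (k l)
    · exact sd_a E (k l)
  cases hj : σ j
  swap
  · refine h i j hij _ ⟨hi, ?_⟩
    have := hne j
    rw [hj] at this ⊢
    exact this
  · have h1 : HT E (k j) (σ j) (k j • E.b) := by
      have := hne j
      rw [hj] at this ⊢
      exact this
    have h2 : ¬ HT E (k i) (σ i) (k j • E.b) := fun h' => h i j hij _ ⟨h', h1⟩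
    have h3 : ¬ (sd E (k i) (k j • E.a) ↔ sd E (k i) (k j • E.b)) := by
      intro h'
      apply h2
      cases hs : σ i
      · rw [hs] at hi
        exact fun h4 => hi (h'.2 h4)
      · rw [hs] at hi
        exact h'.1 hi
    have h4 : s(k j • E.a, k j • E.b) = s(k i • E.a, k i • E.b) := by
      by_contra h5
      exact h3 (sd_adj E (k i) (adj_k E (k j)) h5)
    have h5 := (sym2_eq_iff E (k j) (k i)).1 h4
    have h6 : ∀ v, sd E (k j) v ↔ sd E (k i) v := fun v => sd_eq_of_mem E h5 v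
    have h7 : σ i = true := by
      cases hs : σ i
      · exfalso
        refine h2 ?_
        rw [hs]
        intro h8
        rw [hj] at h1
        exact h1 ((h6 _).2 h8)
      · rfl
    obtain ⟨l, hl1, hl2⟩ : ∃ l : Fin 3, l ≠ i ∧ l ≠ j := by
      revert hij
      fin_cases i <;> fin_cases j <;> decide
    have h8 := hne l
    refine h l j hl2 _ ⟨h8, ?_⟩
    rw [hj]
    intro h11
    refine h l i hl1 _ ⟨h8, ?_⟩
    rw [h7]
    exact (h6 _).1 h11

namespace Sp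

variable {G : Type} [Group G] (D : Sp G)

variable {X : Type} [Group X] {S' : Set X}

/-- the sides of a twisted wall in the tree -/
private theorem t3_Zb {K : ℕ} (w : QW D.S S' K) (g k : G) (σ : Bool) (y : X) :
    y ∈ D.Zb (w.tw 1 (g * k)) σ ↔ HT D.E k σ ((g⁻¹ * w.f' y) • D.E.a) := by
  have h1 : y ∈ D.Z (w.tw 1 (g * k)) ↔ sd D.E k ((g⁻¹ * w.f' y) • D.E.a) := by
    rw [mem_Z, A_iff_sd]
    show sd D.E 1 (((g * k)⁻¹ * w.f' (1⁻¹ * y)) • D.E.a) ↔ _
    rw [inv_one, one_mul]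
    have e1 := sd_smul D.E k 1 (((g * k)⁻¹ * w.f' y) • D.E.a)
    rw [mul_one, ← mul_smul] at e1
    rw [← e1]
    have e2 : k * ((g * k)⁻¹ * w.f' y) = g⁻¹ * w.f' y := by group
    rw [e2]
  cases σ
  · exact not_congr h1
  · exact h1

/-- a line of the family is near a half-space of another one only along its line -/
private theorem t3_line {K : ℕ} : ∃ e : ℕ, ∀ (w : QW D.S S' K) (g : G) (k k' : G) (σ : Bool),
    ¬ HT D.E k σ (k' • D.E.a) → ∀ l ∈ D.L (w.tw 1 (g * k')), l ∈ D.Zb (w.tw 1 (g * k)) σ →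
      l ∈ nbhd S' (K * e + K) (D.L (w.tw 1 (g * k))) := by
  obtain ⟨e, he⟩ := D.exists_e (S' := S') K
  refine ⟨e, fun w g k k' σ hn l hl hlU => ?_⟩
  obtain ⟨x, hx, rfl⟩ := hl
  -- the point of the group below `l`
  have e1 : (w.tw 1 (g * k')).f x = (w.tw 1 (g * k)).f (k⁻¹ * (k' * x)) := by
    show 1 * w.f (g * k' * x) = 1 * w.f (g * k * (k⁻¹ * (k' * x)))
    congr 2
    group
  rw [e1] at hlU ⊢
  by_cases hnear : k⁻¹ * (k' * x) ∈ nbhd D.S e D.C
  · obtain ⟨m, hm, hd⟩ := hnear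
    refine ⟨(w.tw 1 (g * k)).f m, ⟨m, hm, rfl⟩, ?_⟩
    refine ((w.tw 1 (g * k)).hf.1 _ _).trans ?_
    gcongr
  · exfalso
    have h1 := he (w.tw 1 (g * k)) _ hnear
    have h2 : D.A (k⁻¹ * (k' * x)) ↔ sd D.E k (k' • D.E.a) := by
      rw [A_iff_sd]
      have e3 := sd_smul D.E k 1 ((k⁻¹ * (k' * x)) • D.E.a)
      rw [mul_one, ← mul_smul, mul_inv_cancel_left, mul_smul] at e3
      rw [← e3]
      have e4 : x • D.E.a = D.E.a := by
        have := hx
        rw [Splitting.edgeGroup, Subgroup.mem_inf, mem_stabilizer_iff] at this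
        exact this.1
      rw [e4]
    apply hn
    cases σ
    · intro h3
      exact hlU (h1.2 (h2.2 h3))
    · exact h2.1 (h1.1 hlU)

/-- `Le` without the definition: the half-space `σ` of `w` is contained in the half-space `σ'` of
`w'` up to points near the two lines -/
theorem deep_corner (gS' : Subgroup.closure S' = ⊤) (hv : Branch D.E) (K : ℕ) : ∃ R : ℕ,
    ∀ (w w' : QW D.S S' K) (σ σ' : Bool) (y₀ : X), y₀ ∈ D.Zb w σ → y₀ ∈ D.Zb w' σ' →
      y₀ ∉ nbhd S' R (D.L w) → y₀ ∉ nbhd S' R (D.L w') →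
      ∀ d : ℕ, ∃ y, y ∈ D.Zb w σ ∧ y ∈ D.Zb w' σ' ∧ y ∉ nbhd S' d (D.L w) ∧
        y ∉ nbhd S' d (D.L w') := by
  obtain ⟨k, τ, hdisj⟩ := exists_three D.E hv
  obtain ⟨R₀, hR₀⟩ := D.exists_R gS' K
  obtain ⟨c, hc⟩ := D.exists_cr gS' K
  obtain ⟨e, he⟩ := D.t3_line (S' := S') (K := K)
  obtain ⟨R₀', hR₀'⟩ : ∃ m, m = R₀ + (c * R₀ + c) + (K * e + K) := ⟨_, rfl⟩
  obtain ⟨ρ, R₁, hρ⟩ := D.near_of_corner gS' K R₀'
  obtain ⟨r₃, hr₃⟩ : ∃ m : ℕ, ∀ i, K * wlen D.S (k i) + K + K ≤ m := by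
    refine ⟨∑ i, (K * wlen D.S (k i) + K + K), fun i => ?_⟩
    exact Finset.single_le_sum (f := fun i => K * wlen D.S (k i) + K + K)
      (fun i _ => Nat.zero_le _) (Finset.mem_univ i)
  refine ⟨(c * r₃ + c) + (r₃ + R₀) + (r₃ + R₁), fun w w' σ σ' y₀ hσ hσ' hn hn' d => ?_⟩
  obtain ⟨g, hg⟩ : ∃ g, g = w.f' y₀ := ⟨_, rfl⟩
  -- the three walls
  obtain ⟨W, hW⟩ : ∃ W : Fin 3 → QW D.S S' K, ∀ i, W i = w.tw 1 (g * k i) := ⟨_, fun _ => rfl⟩
  have hU : ∀ i j, i ≠ j → ∀ y, y ∈ D.Zb (W i) (τ i) → y ∉ D.Zb (W j) (τ j) := by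
    intro i j hij y h1 h2
    rw [hW, D.t3_Zb] at h1 h2
    exact hdisj i j hij _ ⟨h1, h2⟩
  -- the base points
  have hp : ∀ i, ∃ p ∈ D.L (W i), wdist S' y₀ p ≤ r₃ := by
    intro i
    refine ⟨w.f (g * k i), ?_, ?_⟩
    · rw [hW]
      refine ⟨1, D.E.edgeGroup.one_mem, ?_⟩
      show w.f (g * k i) = 1 * w.f (g * k i * 1)
      rw [mul_one, one_mul]
    · have e1 := w.h1 y₀
      rw [← hg, wdist_comm gS'] at e1
      have e2 := w.hf.1 g (g * k i)
      have e3 : wdist D.S g (g * k i) = wlen D.S (k i) := by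
        unfold wdist
        rw [inv_mul_cancel_left]
      rw [e3] at e2
      have e4 := wdist_triangle gS' y₀ (w.f g) (w.f (g * k i))
      have e5 := hr₃ i
      omega
  -- a line enters at most one of the three half-spaces
  have hone : ∀ (v : QW D.S S' K) (i j : Fin 3), i ≠ j →
      (∃ q ∈ D.L v, q ∉ nbhd S' R₀' (D.L (W i)) ∧ q ∈ D.Zb (W i) (τ i)) →
      ¬ (∃ q ∈ D.L v, q ∉ nbhd S' R₀' (D.L (W j)) ∧ q ∈ D.Zb (W j) (τ j)) := by
    rintro v i j hij ⟨q, hq, hqn, hqU⟩ ⟨q', hq', hqn', hqU'⟩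
    obtain ⟨ν, hν⟩ := hR₀ (W j) v
    have h1 : ν = τ j := by
      have h2 := hν q' hq' (fun h' => hqn' (nbhd_mono (by omega) _ h'))
      by_contra h3
      have h4 : ν = !(τ j) := by
        cases hν' : ν <;> cases hτ : τ j <;> simp_all
      rw [h4, mem_Zb_not] at h2
      exact h2 hqU'
    rw [h1] at hν
    have h2 : q ∈ nbhd S' R₀ (D.L (W j)) := by
      by_contra h3
      exact hU i j hij q hqU (hν q hq h3)
    obtain ⟨l, hl, hd⟩ := h2
    by_cases hlU : l ∈ D.Zb (W i) (τ i)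
    · have h3 : l ∈ nbhd S' (K * e + K) (D.L (W i)) := by
        rw [hW] at hl hlU ⊢
        exact he w g (k i) (k j) (τ i) (t3_base D.E hdisj hij) l hl hlU
      exact hqn (nbhd_mono (by omega) _ (mem_nbhd_of_dist gS' h3 hd))
    · exact hqn (nbhd_mono (by omega) _
        (hc (W i) (τ i) q l R₀ (fun h' => hlU (h'.1 hqU)) hd))
  -- a good index
  obtain ⟨i, hi, hi'⟩ : ∃ i, (∀ q ∈ D.L w, q ∉ nbhd S' R₀' (D.L (W i)) → q ∉ D.Zb (W i) (τ i)) ∧
      (∀ q ∈ D.L w', q ∉ nbhd S' R₀' (D.L (W i)) → q ∉ D.Zb (W i) (τ i)) := by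
    have hbad : ∀ v : QW D.S S' K, ∀ i j : Fin 3, i ≠ j →
        (¬ ∀ q ∈ D.L v, q ∉ nbhd S' R₀' (D.L (W i)) → q ∉ D.Zb (W i) (τ i)) →
        (∀ q ∈ D.L v, q ∉ nbhd S' R₀' (D.L (W j)) → q ∉ D.Zb (W j) (τ j)) := by
      intro v i j hij h1 q hq hqn hqU
      push Not at h1
      exact hone v i j hij h1 ⟨q, hq, hqn, hqU⟩
    by_cases a0 : ∀ q ∈ D.L w, q ∉ nbhd S' R₀' (D.L (W 0)) → q ∉ D.Zb (W 0) (τ 0)
    · by_cases b0 : ∀ q ∈ D.L w', q ∉ nbhd S' R₀' (D.L (W 0)) → q ∉ D.Zb (W 0) (τ 0)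
      · exact ⟨0, a0, b0⟩
      · by_cases a1 : ∀ q ∈ D.L w, q ∉ nbhd S' R₀' (D.L (W 1)) → q ∉ D.Zb (W 1) (τ 1)
        · exact ⟨1, a1, hbad w' 0 1 (by decide) b0⟩
        · exact ⟨2, hbad w 1 2 (by decide) a1, hbad w' 0 2 (by decide) b0⟩
    · by_cases b1 : ∀ q ∈ D.L w', q ∉ nbhd S' R₀' (D.L (W 1)) → q ∉ D.Zb (W 1) (τ 1)
      · exact ⟨1, hbad w 0 1 (by decide) a0, b1⟩
      · exact ⟨2, hbad w 0 2 (by decide) a0, hbad w' 1 2 (by decide) b1⟩
  obtain ⟨p, hpL, hpd⟩ := hp i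
  -- deep points of the good half-space are on the right side of both walls
  have hside : ∀ (v : QW D.S S' K) (s : Bool), y₀ ∈ D.Zb v s →
      y₀ ∉ nbhd S' ((c * r₃ + c) + (r₃ + R₀) + (r₃ + R₁)) (D.L v) →
      (∀ q ∈ D.L v, q ∉ nbhd S' R₀' (D.L (W i)) → q ∉ D.Zb (W i) (τ i)) →
      ∀ z, z ∈ D.Zb (W i) (τ i) → z ∉ nbhd S' ρ (D.L (W i)) → z ∈ D.Zb v s := by
    intro v s hs hnv hgood z hz hzn
    have hpv : p ∈ D.Zb v s := by
      by_contra h1
      exact hnv (nbhd_mono (by omega) _ (hc v s y₀ p r₃ (fun h' => h1 (h'.1 hs)) hpd))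
    have hon : D.On v (W i) R₀ s := by
      obtain ⟨ν, hν⟩ := hR₀ v (W i)
      have h1 : ν = s := by
        have h2 := hν p hpL (fun h' => hnv (nbhd_mono (by omega) _ (mem_nbhd_of_dist gS' h' hpd)))
        by_contra h3
        have h4 : ν = !s := by
          cases hν' : ν <;> cases hs' : s <;> simp_all
        rw [h4, mem_Zb_not] at h2
        exact h2 hpv
      rw [h1] at hν
      exact hν
    by_contra hzv
    have h1 := hρ (W i) v (!(τ i)) s
      (fun q hq hqn => (D.mem_Zb_not (W i) (τ i) q).2 (hgood q hq hqn))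
      (On.mono D hon (by omega))
      ⟨z, fun h' => (D.mem_Zb_not (W i) (τ i) z).1 h' hz, hzv, hzn⟩ hpL
    exact hnv (nbhd_mono (by omega) _ (mem_nbhd_of_dist gS' h1 hpd))
  have hdeep : ∀ (v : QW D.S S' K),
      (∀ q ∈ D.L v, q ∉ nbhd S' R₀' (D.L (W i)) → q ∉ D.Zb (W i) (τ i)) →
      ∀ z, z ∈ D.Zb (W i) (τ i) → z ∉ nbhd S' (ρ + (d + R₀') + (c * d + c)) (D.L (W i)) →
      z ∉ nbhd S' d (D.L v) := by
    intro v hgood z hz hzn hcon
    obtain ⟨q, hq, hd⟩ := hcon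
    by_cases h1 : q ∈ nbhd S' R₀' (D.L (W i))
    · exact hzn (nbhd_mono (by omega) _ (mem_nbhd_of_dist gS' h1 hd))
    · have h2 := hgood q hq h1
      exact hzn (nbhd_mono (by omega) _ (hc (W i) (τ i) z q d (fun h' => h2 (h'.1 hz)) hd))
  obtain ⟨r, hr⟩ := D.exists_r S' K (ρ + (d + R₀') + (c * d + c))
  obtain ⟨z, hz, -, hzn⟩ := hr (W i) (τ i) p hpL
  have hzρ : z ∉ nbhd S' ρ (D.L (W i)) := fun h' => hzn (nbhd_mono (by omega) _ h')
  exact ⟨z, hside w σ hσ hn hi z hz hzρ, hside w' σ' hσ' hn' hi' z hz hzρ,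
    hdeep w hi z hz hzn, hdeep w' hi' z hz hzn⟩

end Sp

end Pool.Agent.QIS
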