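import Pool.Agent.H67.W3.Fin2

/-!
# Chains, stabilizers, the family of half-spaces
-/

set_option autoImplicit false

namespace Pool.Agent.QIS

open MulAction

namespace Ht

variable {G H : Type} [Group G] [Group H] (P : Ht G H)

theorem mem_Z_iff (h : H) (k : G) (σ : Bool) (y : H) :
    y ∈ P.D.Z (P.w (h, k, σ)) ↔ sd P.D.E k (P.F.f' (h⁻¹ * y) • P.D.E.a) := by
  show P.D.A (k⁻¹ * P.F.f' (h⁻¹ * y)) ↔ _
  rw [sd_iff]
  rfl

/-- equal half-spaces have close lines -/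
theorem exists_R₅ : ∃ R : ℕ, ∀ p q : H × G × Bool,
    P.SS p = P.SS q → P.Ln p ⊆ nbhd P.S' R (P.Ln q) := by
  obtain ⟨r, hr⟩ := P.D.exists_r P.S' P.K P.R
  obtain ⟨c, hc⟩ := P.D.exists_cr P.gS' P.K
  refine ⟨r + P.R + (r + (c * (r + r) + c)), fun p q hS l hl => ?_⟩
  obtain ⟨z₁, a1, a2, a3⟩ := hr (P.w p) p.2.2 l hl
  obtain ⟨z₂, b1, b2, b3⟩ := hr (P.w p) (!p.2.2) l hl
  rw [Sp.mem_Zb_not] at b1
  have m1 : z₁ ∈ P.SS q := by rw [← hS]; exact (P.mem_SS_iff a3).2 a1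
  have m2 : z₂ ∉ P.SS q := by rw [← hS]; exact fun h3 => b1 ((P.mem_SS_iff b3).1 h3)
  by_cases n1 : z₁ ∈ nbhd P.S' P.R (P.Ln q)
  · exact nbhd_mono (by omega) _ (mem_nbhd_of_dist P.gS' n1 a2)
  by_cases n2 : z₂ ∈ nbhd P.S' P.R (P.Ln q)
  · exact nbhd_mono (by omega) _ (mem_nbhd_of_dist P.gS' n2 b2)
  have s1 := (P.mem_SS_iff n1).1 m1
  have s2 := fun h3 => m2 ((P.mem_SS_iff n2).2 h3)
  have d3 : wdist P.S' z₁ z₂ ≤ r + r := by
    have := wdist_triangle P.gS' z₁ l z₂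
    rw [wdist_comm P.gS' _ l] at this
    omega
  have n3 := hc (P.w q) q.2.2 z₁ z₂ _ (fun h3 => s2 (h3.1 s1)) d3
  exact nbhd_mono (by omega) _ (mem_nbhd_of_dist P.gS' n3 a2)

theorem wf_line (p : H × G × Bool) : CoarseLine (wlen P.S') (fun n : ℤ => (P.w p).f (P.D.c ^ n)) := by
  have := coarseLine_of_qi P.D.hS P.D.gS (P.w p).hf 1 P.D.c P.D.hinf
  simpa only [one_mul] using this

theorem St_twoEnded (p : H × G × Bool) : TwoEnded (Dt.St (H := H) (P.SS p)) := by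
  classical
  obtain ⟨R, hR⟩ := P.exists_R₅
  -- representatives
  let rep : Set H → H := fun B => if hB : ∃ y : H, tr y⁻¹ (P.SS p) = B then hB.choose
    else 1
  have hrep : ∀ y : H, tr (rep (tr y⁻¹ (P.SS p)))⁻¹ (P.SS p) = tr y⁻¹ (P.SS p) := by
    intro y
    have hB : ∃ y' : H, tr y'⁻¹ (P.SS p) = tr y⁻¹ (P.SS p) := ⟨y, rfl⟩
    simp only [rep, dif_pos hB]
    exact hB.choose_spec
  obtain ⟨R₁, hR₁⟩ := ((P.near_finite 0).image (fun B => wlen P.S' (rep B))).bddAbove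
  refine twoEnded_of_coarse (properLen_wlen P.hS' P.gS') _ _ (P.wf_line p)
    (max R₁ (wlen P.S' ((P.w p).f 1) + (R + (P.K * P.D.Dc + P.K)))) ?_ ?_
  · intro κ hκ
    have hκ' : tr κ (P.SS p) = P.SS p := hκ
    have h1 : P.SS (act κ p) = P.SS p := by rw [← P.tr_SS]; exact hκ'
    have hb : κ * (P.w p).f 1 ∈ P.Ln (act κ p) := by
      rw [mem_Ln_act, inv_mul_cancel_left]; exact P.base_mem p
    obtain ⟨l, ⟨x, hx, rfl⟩, hd⟩ := hR _ _ h1 hb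
    obtain ⟨n, hn⟩ := P.D.hcov x hx
    refine ⟨n, ?_⟩
    have e2 : wdist P.S' ((P.w p).f x) ((P.w p).f (P.D.c ^ n)) ≤ P.K * P.D.Dc + P.K := by
      refine ((P.w p).hf.1 _ _).trans ?_
      gcongr
    have e3 : wdist P.S' κ (κ * (P.w p).f 1) = wlen P.S' ((P.w p).f 1) := by
      unfold wdist
      rw [inv_mul_cancel_left]
    have e4 := wdist_triangle P.gS' κ (κ * (P.w p).f 1) ((P.w p).f (P.D.c ^ n))
    have e5 := wdist_triangle P.gS' (κ * (P.w p).f 1) ((P.w p).f x) ((P.w p).f (P.D.c ^ n))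
    refine le_trans ?_ (le_max_right _ _)
    show wdist P.S' κ ((P.w p).f (P.D.c ^ n)) ≤ _
    omega
  · intro n
    set y := (P.w p).f (P.D.c ^ n) with hy
    have hmem : tr y⁻¹ (P.SS p) ∈ {A : Set H | ∃ p, A = P.SS p ∧
        ∃ l ∈ P.Ln p, wdist P.S' 1 l ≤ 0} := by
      refine ⟨act y⁻¹ p, P.tr_SS _ _, 1, ?_, by rw [wdist_self]⟩
      rw [mem_Ln_act, inv_inv, mul_one]
      exact ⟨P.D.c ^ n, P.D.zpow_mem n, rfl⟩
    refine ⟨y * (rep (tr y⁻¹ (P.SS p)))⁻¹, ?_, ?_⟩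
    · show tr (y * (rep (tr y⁻¹ (P.SS p)))⁻¹) (P.SS p) = P.SS p
      rw [Q4.tr_mul, hrep, ← Q4.tr_mul, mul_inv_cancel, Q4.tr_one]
    · refine le_trans ?_ (le_max_left _ _)
      have e1 : (y * (rep (tr y⁻¹ (P.SS p)))⁻¹)⁻¹ * y = rep (tr y⁻¹ (P.SS p)) := by group
      show wlen P.S' ((y * (rep (tr y⁻¹ (P.SS p)))⁻¹)⁻¹ * y) ≤ R₁
      rw [e1]
      exact hR₁ ⟨_, hmem, rfl⟩

theorem exists_chain' : ∃ q : G, ∀ i : ℤ,
    P.SS (1, q ^ (i + 1), true) ⊂ P.SS (1, q ^ i, true) := by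
  obtain ⟨r₀, h₀⟩ := exists_cross P.D.hS P.D.gS P.D.E
  obtain ⟨q, x₀, hq, hx1, hx2, hn1, hn2⟩ := exists_chain P.D.hS P.D.gS P.D.E
    ((P.K + r₀) + (P.K * P.R + P.K))
  refine ⟨q, fun i => ?_⟩
  have hsub : P.SS (1, q ^ (i + 1), true) ⊆ P.SS (1, q ^ i, true) := by
    refine P.SS_mono ⟨0, fun y hy hy' => absurd ?_ hy'⟩
    have h1 : y ∈ P.D.Z (P.w (1, q ^ (i + 1), true)) := hy
    show y ∈ P.D.Z (P.w (1, q ^ i, true))
    rw [mem_Z_iff] at h1 ⊢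
    exact Dt.sd_pow P.D.E hq i _ h1
  refine ⟨hsub, fun hsub' => ?_⟩
  -- the point between
  have key : ∀ j : G, x₀ ∉ nbhd P.D.S ((P.K + r₀) + (P.K * P.R + P.K)) (ES P.D.E j) →
      (P.F.f (q ^ i * x₀) ∈ P.SS (1, q ^ i * j, true) ↔ sd P.D.E j (x₀ • P.D.E.a)) := by
    intro j hn
    have hfar : ∀ R, R ≤ (P.K + r₀) + (P.K * P.R + P.K) →
        q ^ i * x₀ ∉ nbhd P.D.S R (ES P.D.E (q ^ i * j)) := by
      intro R hR hcon
      exact hn (nbhd_mono hR _ ((nbhd_smul (S := P.D.S) (q ^ i) x₀ R P.D.E j).1 hcon))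
    have n1 : P.F.f (q ^ i * x₀) ∉ nbhd P.S' P.R (P.Ln (1, q ^ i * j, true)) := by
      rintro ⟨l, ⟨x, hx, rfl⟩, hd⟩
      refine hfar (P.K * P.R + P.K) (by omega) ⟨q ^ i * j * x, mem_ES_mul P.D.E _ hx, ?_⟩
      refine (P.F.hf.2.1 _ _).trans ?_
      have hd' : wdist P.S' (P.F.f (q ^ i * x₀)) (P.F.f (q ^ i * j * x)) ≤ P.R := by
        have e : (P.w (1, q ^ i * j, true)).f x = P.F.f (q ^ i * j * x) := one_mul _
        rw [e] at hd
        exact hd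
      gcongr
    rw [P.mem_SS_iff n1]
    have e1 : P.F.f (q ^ i * x₀) ∈ P.Y (1, q ^ i * j, true) ↔
        sd P.D.E (q ^ i * j) (P.F.f' (P.F.f (q ^ i * x₀)) • P.D.E.a) := by
      have := P.mem_Z_iff 1 (q ^ i * j) true (P.F.f (q ^ i * x₀))
      rw [inv_one, one_mul] at this
      exact this
    rw [e1]
    have e2 := sd_smul P.D.E (q ^ i) j (x₀ • P.D.E.a)
    rw [← mul_smul] at e2
    rw [← e2]
    by_contra hcon
    refine hfar (P.K + r₀) (by omega) (nbhd_mono ?_ _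
      (h₀ (q ^ i * j) (q ^ i * x₀) (P.F.f' (P.F.f (q ^ i * x₀))) (fun h => hcon h.symm)))
    have := P.F.h2 (q ^ i * x₀)
    rw [wdist_comm P.D.gS] at this
    omega
  have k1 := key 1 hn1
  have k2 := key q hn2
  rw [mul_one] at k1
  rw [← zpow_add_one] at k2
  exact hx2 (k2.1 (hsub' (k1.2 hx1)))

/-- the family of all half-spaces -/
def WW : Set (Set H) := {A | ∃ p, A = P.SS p}

theorem walls : Walls H P.WW where
  compl := by
    rintro A ⟨p, rfl⟩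
    exact ⟨star p, (P.SS_star p).symm⟩
  inv := by
    rintro η A ⟨p, rfl⟩
    exact ⟨act η p, P.tr_SS η p⟩
  ne := by
    rintro A ⟨p, rfl⟩
    obtain ⟨r, hr⟩ := P.D.exists_r P.S' P.K P.R
    obtain ⟨z, a1, -, a3⟩ := hr (P.w p) p.2.2 _ (P.base_mem p)
    exact ⟨z, (P.mem_SS_iff a3).2 a1⟩
  sep := by
    intro x y
    refine (P.sep_finite x y).subset ?_
    rintro A ⟨⟨p, rfl⟩, hx, hy⟩
    exact ⟨⟨p, rfl⟩, fun h3 => hy (h3.1 hx)⟩
  cross := by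
    rintro A ⟨p, rfl⟩
    exact P.cross_finite p
  orb := by
    refine ⟨_, P.near_finite 0, ?_⟩
    rintro A ⟨p, rfl⟩
    refine ⟨((P.w p).f 1)⁻¹, act ((P.w p).f 1)⁻¹ p, P.tr_SS _ _, 1, ?_, by rw [wdist_self]⟩
    rw [mem_Ln_act, inv_inv, mul_one]
    exact P.base_mem p
  chain := by
    obtain ⟨q, hq⟩ := P.exists_chain'
    exact ⟨fun i => P.SS (1, q ^ i, true), fun i => ⟨_, rfl⟩, hq⟩

include P in
theorem splits : SplitsOverTwoEnded H := by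
  obtain ⟨E', A, hA, F, hF, hcov⟩ := walls_splitting P.walls
  refine ⟨E', ?_⟩
  have hinf : Infinite E'.edgeGroup :=
    infinite_edgeGroup P.D.S P.S' P.D.hS P.hS' P.D.gS P.gS' P.D.hone P.K P.F.f P.F.hf E'
  have hSt : TwoEnded (Dt.St (H := H) A) := by
    obtain ⟨p, rfl⟩ := hA
    exact P.St_twoEnded p
  let Q : Subgroup ↥(Dt.St (H := H) A) := E'.edgeGroup.subgroupOf (Dt.St (H := H) A)
  have hQinf : Infinite Q := by
    by_contra hQ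
    rw [not_infinite_iff_finite] at hQ
    have h1 : {q : H | q ∈ E'.edgeGroup ∧ q ∈ Dt.St (H := H) A}.Finite := by
      have h2 : Set.Finite (Set.range (fun q : Q => ((q : ↥(Dt.St (H := H) A)) : H))) :=
        Set.finite_range _
      refine h2.subset ?_
      rintro q ⟨hq1, hq2⟩
      exact ⟨⟨⟨q, hq2⟩, Subgroup.mem_subgroupOf.2 hq1⟩, rfl⟩
    have h3 : ((E'.edgeGroup : Set H)).Finite := by
      refine (hF.image2 (fun f q => f * q) h1).subset ?_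
      intro g hg
      obtain ⟨f, hf, q, hq1, hq2, rfl⟩ := hcov g hg
      exact ⟨f, hf, q, ⟨hq1, hq2⟩, rfl⟩
    exact (Set.infinite_coe_iff.1 hinf) h3
  have hQte : TwoEnded Q := (TwoEnded.of_infinite hSt Q hQinf).1
  have hQte' : TwoEnded (Q.map (Dt.St (H := H) A).subtype) :=
    TwoEnded.congr (Q.equivMapOfInjective _ (Subgroup.subtype_injective _)) hQte
  rw [twoEnded_iff_cover] at hQte' ⊢
  obtain ⟨z, hz, hzinf, F₂, hF₂, hcov₂⟩ := hQte'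
  have hmem : ∀ q : H, q ∈ Q.map (Dt.St (H := H) A).subtype ↔
      q ∈ E'.edgeGroup ∧ q ∈ Dt.St (H := H) A := by
    intro q
    rw [Subgroup.mem_map]
    constructor
    · rintro ⟨x, hx, rfl⟩
      exact ⟨Subgroup.mem_subgroupOf.1 hx, x.2⟩
    · rintro ⟨h1, h2⟩
      exact ⟨⟨q, h2⟩, Subgroup.mem_subgroupOf.2 h1, rfl⟩
  refine ⟨z, ((hmem z).1 hz).1, hzinf, Set.image2 (fun f q => f * q) F F₂,
    hF.image2 _ hF₂, fun g hg => ?_⟩
  obtain ⟨f, hf, q, hq1, hq2, rfl⟩ := hcov g hg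
  obtain ⟨f', hf', n, hn⟩ := hcov₂ q ((hmem q).2 ⟨hq1, hq2⟩)
  refine ⟨f * f', ⟨f, hf, f', hf', rfl⟩, n, ?_⟩
  rw [hn, mul_assoc]

end Ht

end Pool.Agent.QIS
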