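import Pool.Agent.H67.W3.Merge

/-!
# Quasi-isometries close to the identity on a large ball do not move the edge group far
-/

set_option autoImplicit false

namespace Pool.Agent.QIS

namespace Sp

variable {G : Type} [Group G] (D : Sp G)

/-! ### distances between powers -/

private theorem lf_len (n : ℕ) : wlen D.S (D.c ^ n) ≤ n * wlen D.S D.c := by
  induction n with
  | zero => rw [pow_zero, q6_one]; exact Nat.zero_le _
  | succ n ih =>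
    rw [pow_succ]
    have := q6_mul D.gS (D.c ^ n) D.c
    calc wlen D.S (D.c ^ n * D.c) ≤ wlen D.S (D.c ^ n) + wlen D.S D.c := this
      _ ≤ n * wlen D.S D.c + wlen D.S D.c := by omega
      _ = (n + 1) * wlen D.S D.c := by ring

private theorem lf_zlen (n : ℤ) : wlen D.S (D.c ^ n) ≤ n.natAbs * wlen D.S D.c := by
  rcases Int.natAbs_eq n with h | h
  · rw [h, zpow_natCast, Int.natAbs_natCast]; exact D.lf_len _
  · have e : D.c ^ n = (D.c ^ n.natAbs)⁻¹ := by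
      rw [← zpow_natCast, ← zpow_neg, ← h]
    rw [e, q6_inv D.gS]; exact D.lf_len _

private theorem lf_dist (s s' : ℤ) :
    wdist D.S (D.c ^ s) (D.c ^ s') ≤ (s' - s).natAbs * wlen D.S D.c := by
  have e : (D.c ^ s)⁻¹ * D.c ^ s' = D.c ^ (s' - s) := by
    rw [← zpow_neg, ← zpow_add]; congr 1; ring
  unfold wdist
  rw [e]; exact D.lf_zlen _

/-! ### two equal traces -/

private theorem lf_trace {K : ℕ} (w : QW D.S D.S K) (n : ℕ) (Θ : ℕ → ℕ) :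
    ∃ p q : ℕ, Θ p < q ∧ ∀ x, wdist D.S 1 x ≤ n →
      (w.f (D.c ^ (-(p : ℤ))))⁻¹ * w.f (D.c ^ (-(p : ℤ)) * x) =
        (w.f (D.c ^ (-(q : ℤ))))⁻¹ * w.f (D.c ^ (-(q : ℤ)) * x) := by
  classical
  have hB : Finite {x : G // wdist D.S 1 x ≤ n} := (ball_finite D.hS D.gS 1 n).to_subtype
  have hV : Finite {y : G // wdist D.S 1 y ≤ K * n + K} :=
    (ball_finite D.hS D.gS 1 (K * n + K)).to_subtype
  have hval : ∀ (m : ℕ) (x : {x : G // wdist D.S 1 x ≤ n}), wdist D.S 1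
      ((w.f (D.c ^ (-(m : ℤ))))⁻¹ * w.f (D.c ^ (-(m : ℤ)) * x.1)) ≤ K * n + K := by
    intro m x
    rw [← wdist_mul_left (w.f (D.c ^ (-(m : ℤ)))), mul_one, mul_inv_cancel_left]
    refine (w.hf.1 _ _).trans ?_
    have h1 : wdist D.S (D.c ^ (-(m : ℤ))) (D.c ^ (-(m : ℤ)) * x.1) ≤ n := by
      have := wdist_mul_left (S := D.S) (D.c ^ (-(m : ℤ))) 1 x.1
      rw [mul_one] at this
      rw [this]; exact x.2
    gcongr
  let F : ℕ → ({x : G // wdist D.S 1 x ≤ n} → {y : G // wdist D.S 1 y ≤ K * n + K}) :=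
    fun m x => ⟨(w.f (D.c ^ (-(m : ℤ))))⁻¹ * w.f (D.c ^ (-(m : ℤ)) * x.1), hval m x⟩
  obtain ⟨y, hy⟩ := Finite.exists_infinite_fiber F
  have hinf : (F ⁻¹' {y}).Infinite := Set.infinite_coe_iff.1 hy
  obtain ⟨p, hp⟩ := hinf.nonempty
  obtain ⟨q, hq, hpq⟩ := hinf.exists_gt (Θ p)
  refine ⟨p, q, hpq, fun x hx => ?_⟩
  have h1 : F p = F q := by
    have e1 : F p = y := hp
    have e2 : F q = y := hq
    rw [e1, e2]
  have h2 := congrArg Subtype.val (congrFun h1 ⟨x, hx⟩)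
  exact h2

/-! ### the translate follows the edge group -/

/-- a translate `g` that maps the end of the ray of `c` near powers of `c` does so everywhere -/
private theorem lf_all (g : G) (R : ℕ) (s₀ : ℤ)
    (h : ∀ s : ℤ, s₀ ≤ s → ∃ s' : ℤ, wdist D.S (g * D.c ^ s) (D.c ^ s') ≤ R) :
    ∀ s : ℤ, ∃ s' : ℤ, wdist D.S (g * D.c ^ s) (D.c ^ s') ≤ R := by
  classical
  have hV : Finite {y : G // wdist D.S 1 y ≤ R} := (ball_finite D.hS D.gS 1 R).to_subtype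
  choose b hb using fun m : ℕ => h (s₀ + m) (by omega)
  have hval : ∀ m : ℕ, wdist D.S 1 ((D.c ^ (b m))⁻¹ * (g * D.c ^ (s₀ + (m : ℤ)))) ≤ R := by
    intro m
    rw [← wdist_mul_left (D.c ^ (b m)), mul_one, mul_inv_cancel_left, wdist_comm D.gS]
    exact hb m
  let F : ℕ → {y : G // wdist D.S 1 y ≤ R} :=
    fun m => ⟨(D.c ^ (b m))⁻¹ * (g * D.c ^ (s₀ + (m : ℤ))), hval m⟩
  obtain ⟨m₁, m₂, hne, hF⟩ : ∃ m₁ m₂ : ℕ, m₁ < m₂ ∧ F m₁ = F m₂ := by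
    obtain ⟨x, y, hxy, hF⟩ := Finite.exists_ne_map_eq_of_infinite F
    rcases lt_or_gt_of_ne hxy with h' | h'
    · exact ⟨x, y, h', hF⟩
    · exact ⟨y, x, h', hF.symm⟩
  have hF' : (D.c ^ (b m₁))⁻¹ * (g * D.c ^ (s₀ + (m₁ : ℤ))) =
      (D.c ^ (b m₂))⁻¹ * (g * D.c ^ (s₀ + (m₂ : ℤ))) := congrArg Subtype.val hF
  obtain ⟨α, hα, hα1⟩ : ∃ α : ℤ, α = (m₂ : ℤ) - m₁ ∧ 1 ≤ α := ⟨_, rfl, by omega⟩
  have hsc : SemiconjBy g (D.c ^ α) (D.c ^ (b m₂ - b m₁)) := by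
    show g * D.c ^ α = D.c ^ (b m₂ - b m₁) * g
    have e1 : g * D.c ^ (s₀ + (m₂ : ℤ)) =
        D.c ^ (b m₂) * ((D.c ^ (b m₁))⁻¹ * (g * D.c ^ (s₀ + (m₁ : ℤ)))) := by
      rw [hF', mul_inv_cancel_left]
    have e2 : D.c ^ (s₀ + (m₂ : ℤ)) = D.c ^ α * D.c ^ (s₀ + (m₁ : ℤ)) := by
      rw [← zpow_add]; congr 1; omega
    rw [e2, ← mul_assoc, ← mul_assoc, ← mul_assoc] at e1
    have e3 := mul_right_cancel e1
    rw [e3]; congr 1
    rw [← zpow_neg, ← zpow_add]; congr 1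
  intro s
  obtain ⟨m, hm⟩ : ∃ m : ℕ, s₀ ≤ s + α * m := by
    refine ⟨(s₀ - s).natAbs, ?_⟩
    have h1 : s₀ - s ≤ ((s₀ - s).natAbs : ℤ) := Int.le_natAbs
    nlinarith [Int.natCast_nonneg (s₀ - s).natAbs]
  obtain ⟨s', hs'⟩ := h _ hm
  refine ⟨-((b m₂ - b m₁) * m) + s', ?_⟩
  have h2 := hsc.zpow_right (m : ℤ)
  rw [← zpow_mul, ← zpow_mul] at h2
  have h3 : g * D.c ^ (α * m) = D.c ^ ((b m₂ - b m₁) * m) * g := h2
  have e4 : g * D.c ^ s = D.c ^ (-((b m₂ - b m₁) * (m : ℤ))) * (g * D.c ^ (s + α * m)) := by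
    have e5 : D.c ^ (s + α * m) = D.c ^ (α * m) * D.c ^ s := by
      rw [← zpow_add]; congr 1; ring
    rw [e5, ← mul_assoc g, h3, zpow_neg, mul_assoc (D.c ^ ((b m₂ - b m₁) * (m : ℤ))),
      inv_mul_cancel_left]
  rw [e4, zpow_add D.c (-((b m₂ - b m₁) * (m : ℤ))) s', wdist_mul_left]
  exact hs'

/-! ### the main step -/

private theorem lf_core {K : ℕ} (N : ℕ → ℕ)
    (hN : ∀ (X : ℕ) (s s' : ℤ), wdist D.S (D.c ^ s) (D.c ^ s') ≤ X → |s - s'| ≤ N X)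
    (T₆ T₇ n₇ : ℕ) (w : QW D.S D.S K) (hw1 : wdist D.S (w.f 1) 1 ≤ K)
    (hRC : D.RC w T₆)
    (hsh : ∀ w₁ w₂ : QW D.S D.S K, (∀ x, wdist D.S 1 x ≤ n₇ → w₁.f x = w₂.f x) →
      (∀ i : ℕ, ∃ j : ℕ, wdist D.S (w₂.f (D.c ^ i)) (w₁.f (D.c ^ j)) ≤ T₇) ∧
      (∀ i : ℕ, ∃ j : ℕ, wdist D.S (w₁.f (D.c ^ i)) (w₂.f (D.c ^ j)) ≤ T₇))
    (a : ℤ) : D.Near w (2 * T₆ + T₇ + T₆ + T₇) a := by
  have gS := D.gS
  obtain ⟨lc, hlc⟩ : ∃ lc, lc = wlen D.S D.c := ⟨_, rfl⟩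
  -- distances of images of powers
  have hfd : ∀ u u' : ℤ, wdist D.S (w.f (D.c ^ u)) (w.f (D.c ^ u')) ≤
      K * ((u' - u).natAbs * lc) + K := by
    intro u u'
    refine (w.hf.1 _ _).trans ?_
    have := D.lf_dist u u'
    rw [← hlc] at this
    gcongr
  -- the constants
  obtain ⟨A₂, hA₂⟩ : ∃ A₂, A₂ = N ((2 * T₆ + T₇) + (a.natAbs * lc + K) + T₇ + T₆) := ⟨_, rfl⟩
  obtain ⟨U₀, hU₀⟩ : ∃ U₀, U₀ = N (K * (K + A₂ * lc + T₆) + K) := ⟨_, rfl⟩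
  obtain ⟨p, q, hpq, htr⟩ := D.lf_trace w n₇
    (fun p => N (K * (T₇ + (K * ((U₀ + p) * lc) + K)) + K))
  obtain ⟨i', hi'⟩ : ∃ i' : ℤ, i' = -(p : ℤ) := ⟨_, rfl⟩
  obtain ⟨i, hi⟩ : ∃ i : ℤ, i = -(q : ℤ) := ⟨_, rfl⟩
  rw [← hi', ← hi] at htr
  obtain ⟨g, hg⟩ : ∃ g, g = w.f (D.c ^ i') * (w.f (D.c ^ i))⁻¹ := ⟨_, rfl⟩
  have hgi : g * w.f (D.c ^ i) = w.f (D.c ^ i') := by rw [hg, inv_mul_cancel_right]
  obtain ⟨S1, S2⟩ := hsh (w.tw 1 (D.c ^ i')) (w.tw g (D.c ^ i)) (by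
    intro x hx
    show 1 * w.f (D.c ^ i' * x) = g * w.f (D.c ^ i * x)
    have e1 := htr x hx
    have e2 : w.f (D.c ^ i' * x) = w.f (D.c ^ i') * ((w.f (D.c ^ i))⁻¹ * w.f (D.c ^ i * x)) := by
      rw [← e1, mul_inv_cancel_left]
    rw [one_mul, e2, hg, mul_assoc])
  -- in terms of `w.f`
  have S1' : ∀ v : ℤ, i ≤ v → ∃ u : ℤ, i' ≤ u ∧
      wdist D.S (g * w.f (D.c ^ v)) (w.f (D.c ^ u)) ≤ T₇ := by
    intro v hv
    obtain ⟨t, ht⟩ : ∃ t : ℕ, v = i + t := ⟨(v - i).toNat, by omega⟩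
    obtain ⟨j, hj⟩ := S1 t
    refine ⟨i' + j, by omega, ?_⟩
    have e1 : (w.tw g (D.c ^ i)).f (D.c ^ t) = g * w.f (D.c ^ v) := by
      show g * w.f (D.c ^ i * D.c ^ t) = _
      rw [ht, zpow_add, zpow_natCast]
    have e2 : (w.tw 1 (D.c ^ i')).f (D.c ^ j) = w.f (D.c ^ (i' + j)) := by
      show 1 * w.f (D.c ^ i' * D.c ^ j) = _
      rw [one_mul, zpow_add, zpow_natCast]
    rw [e1, e2] at hj
    exact hj
  have S2' : ∀ v : ℤ, i' ≤ v → ∃ u : ℤ, i ≤ u ∧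
      wdist D.S (w.f (D.c ^ v)) (g * w.f (D.c ^ u)) ≤ T₇ := by
    intro v hv
    obtain ⟨t, ht⟩ : ∃ t : ℕ, v = i' + t := ⟨(v - i').toNat, by omega⟩
    obtain ⟨j, hj⟩ := S2 t
    refine ⟨i + j, by omega, ?_⟩
    have e1 : (w.tw 1 (D.c ^ i')).f (D.c ^ t) = w.f (D.c ^ v) := by
      show 1 * w.f (D.c ^ i' * D.c ^ t) = _
      rw [ht, one_mul, zpow_add, zpow_natCast]
    have e2 : (w.tw g (D.c ^ i)).f (D.c ^ j) = g * w.f (D.c ^ (i + j)) := by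
      show g * w.f (D.c ^ i * D.c ^ j) = _
      rw [zpow_add, zpow_natCast]
    rw [e1, e2] at hj
    exact hj
  have R1 : ∀ v : ℤ, 0 ≤ v → ∃ u : ℤ, 0 ≤ u ∧ wdist D.S (w.f (D.c ^ v)) (D.c ^ u) ≤ T₆ := by
    intro v hv
    obtain ⟨t, rfl⟩ := Int.eq_ofNat_of_zero_le hv
    obtain ⟨j, hj⟩ := hRC.1 t
    refine ⟨j, by omega, ?_⟩
    rw [zpow_natCast, zpow_natCast]; exact hj
  have R2 : ∀ v : ℤ, 0 ≤ v → ∃ u : ℤ, 0 ≤ u ∧ wdist D.S (D.c ^ v) (w.f (D.c ^ u)) ≤ T₆ := by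
    intro v hv
    obtain ⟨t, rfl⟩ := Int.eq_ofNat_of_zero_le hv
    obtain ⟨j, hj⟩ := hRC.2 t
    refine ⟨j, by omega, ?_⟩
    rw [zpow_natCast, zpow_natCast]; exact hj
  -- `g` maps the end of the right ray of `C` near `C`
  have h1 : ∀ s : ℤ, ∃ s' : ℤ, wdist D.S (g * D.c ^ s) (D.c ^ s') ≤ 2 * T₆ + T₇ := by
    refine D.lf_all g (2 * T₆ + T₇) (N ((wdist D.S g (w.f (D.c ^ i')) + (K * (p * lc) + K)) +
      (T₆ + T₇)) + 1 : ℕ) fun s hs => ?_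
    obtain ⟨v, hv, hd1⟩ := R2 s (by omega)
    obtain ⟨u, hu, hd2⟩ := S1' v (by omega)
    have hd3 : wdist D.S (g * D.c ^ s) (w.f (D.c ^ u)) ≤ T₆ + T₇ := by
      have := wdist_triangle gS (g * D.c ^ s) (g * w.f (D.c ^ v)) (w.f (D.c ^ u))
      rw [wdist_mul_left] at this
      omega
    by_cases hu0 : 0 ≤ u
    · obtain ⟨s', _, hd4⟩ := R1 u hu0
      refine ⟨s', ?_⟩
      have := wdist_triangle gS (g * D.c ^ s) (w.f (D.c ^ u)) (D.c ^ s')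
      omega
    · exfalso
      have e1 := hfd i' u
      have e2 : (u - i').natAbs ≤ p := by omega
      have e3 : K * ((u - i').natAbs * lc) ≤ K * (p * lc) := by gcongr
      have e4 := wdist_triangle gS g (w.f (D.c ^ i')) (w.f (D.c ^ u))
      have e5 := wdist_triangle gS g (w.f (D.c ^ u)) (g * D.c ^ s)
      rw [wdist_comm gS (w.f (D.c ^ u)) (g * D.c ^ s)] at e5
      have e6 : wdist D.S g (g * D.c ^ s) = wdist D.S (D.c ^ (0 : ℤ)) (D.c ^ s) := by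
        have := wdist_mul_left (S := D.S) g 1 (D.c ^ s)
        rw [mul_one] at this
        rw [this, zpow_zero]
      have e7 := hN ((wdist D.S g (w.f (D.c ^ i')) + (K * (p * lc) + K)) + (T₆ + T₇)) 0 s
        (by rw [← e6]; omega)
      rw [abs_le] at e7
      push_cast at hs
      omega
  -- the image of `c ^ a`
  obtain ⟨s₁, hs₁⟩ := h1 a
  -- the image of the centre
  obtain ⟨u, hu, hd1⟩ := S1' 0 (by omega)
  have hf0 : w.f (D.c ^ (0 : ℤ)) = w.f 1 := by rw [zpow_zero]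
  have hw0 : wdist D.S 1 (w.f (D.c ^ (0 : ℤ))) ≤ K := by
    rw [hf0, wdist_comm gS]; exact hw1
  have hU : (U₀ : ℤ) < u := by
    by_contra hcon
    rw [not_lt] at hcon
    have e1 := hfd i' u
    have e2 : (u - i').natAbs ≤ U₀ + p := by omega
    have e3 : K * ((u - i').natAbs * lc) ≤ K * ((U₀ + p) * lc) := by gcongr
    have e4 := wdist_triangle gS (g * w.f (D.c ^ (0 : ℤ))) (w.f (D.c ^ u)) (w.f (D.c ^ i'))
    rw [wdist_comm gS (w.f (D.c ^ u)) (w.f (D.c ^ i'))] at e4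
    have e5 : wdist D.S (w.f (D.c ^ (0 : ℤ))) (w.f (D.c ^ i)) ≤
        T₇ + (K * ((U₀ + p) * lc) + K) := by
      rw [← wdist_mul_left g, hgi]
      omega
    have e6 := w.hf.2.1 (D.c ^ (0 : ℤ)) (D.c ^ i)
    have e7 : K * wdist D.S (w.f (D.c ^ (0 : ℤ))) (w.f (D.c ^ i)) ≤
        K * (T₇ + (K * ((U₀ + p) * lc) + K)) := by gcongr
    have e8 := hN (K * (T₇ + (K * ((U₀ + p) * lc) + K)) + K) 0 i (by omega)
    rw [abs_le] at e8
    omega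
  obtain ⟨s', hs'0, hs'⟩ := R1 u (by omega)
  have hs'A : (A₂ : ℤ) < s' := by
    by_contra hcon
    rw [not_lt] at hcon
    have e1 := D.lf_dist 0 s'
    rw [← hlc] at e1
    have e2 : (s' - 0).natAbs ≤ A₂ := by omega
    have e3 : (s' - 0).natAbs * lc ≤ A₂ * lc := by gcongr
    have e4 := wdist_triangle gS (w.f (D.c ^ (0 : ℤ))) 1 (w.f (D.c ^ u))
    rw [wdist_comm gS (w.f (D.c ^ (0 : ℤ))) 1] at e4
    have e5 := wdist_triangle gS 1 (D.c ^ s') (w.f (D.c ^ u))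
    rw [wdist_comm gS (D.c ^ s') (w.f (D.c ^ u))] at e5
    rw [zpow_zero] at e1
    have e6 := w.hf.2.1 (D.c ^ (0 : ℤ)) (D.c ^ u)
    have e7 : K * wdist D.S (w.f (D.c ^ (0 : ℤ))) (w.f (D.c ^ u)) ≤ K * (K + A₂ * lc + T₆) := by
      have : wdist D.S (w.f (D.c ^ (0 : ℤ))) (w.f (D.c ^ u)) ≤ K + A₂ * lc + T₆ := by omega
      gcongr
    have e8 := hN (K * (K + A₂ * lc + T₆) + K) 0 u (by omega)
    rw [abs_le, ← hU₀] at e8
    omega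
  have hs1 : 0 ≤ s₁ := by
    -- `c ^ s₁`, `g c ^ a`, `g w.f 1`, `w.f (c ^ u)`, `c ^ s'`
    have e1 := wdist_triangle gS (D.c ^ s₁) (g * D.c ^ a) (D.c ^ s')
    rw [wdist_comm gS (D.c ^ s₁) (g * D.c ^ a)] at e1
    have e2 := wdist_triangle gS (g * D.c ^ a) (g * w.f (D.c ^ (0 : ℤ))) (D.c ^ s')
    rw [wdist_mul_left] at e2
    have e3 := wdist_triangle gS (g * w.f (D.c ^ (0 : ℤ))) (w.f (D.c ^ u)) (D.c ^ s')
    have e4 := wdist_triangle gS (D.c ^ a) 1 (w.f (D.c ^ (0 : ℤ)))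
    have e5 := D.lf_dist a 0
    rw [zpow_zero, ← hlc] at e5
    have e6 : (0 - a).natAbs = a.natAbs := by omega
    rw [e6] at e5
    have e7 := hN ((2 * T₆ + T₇) + (a.natAbs * lc + K) + T₇ + T₆) s₁ s' (by omega)
    rw [abs_le, ← hA₂] at e7
    omega
  -- conclusion
  obtain ⟨v, hv, hd2⟩ := R2 s₁ hs1
  obtain ⟨u', _, hd3⟩ := S2' v (by omega)
  refine ⟨w.f (D.c ^ u'), ⟨_, D.zpow_mem u', rfl⟩, ?_⟩
  rw [← wdist_mul_left g]
  have e1 := wdist_triangle gS (g * D.c ^ a) (D.c ^ s₁) (g * w.f (D.c ^ u'))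
  have e2 := wdist_triangle gS (D.c ^ s₁) (w.f (D.c ^ v)) (g * w.f (D.c ^ u'))
  omega

/-- the case of a line that leaves `C` at the left -/
theorem lft_left (K : ℕ) (hK : 1 ≤ K) : ∃ T n : ℕ, ∀ w : QW D.S D.S K, D.Cl w n K →
    ∀ s : ℤ, s ≤ 0 → D.Near w T s := by
  obtain ⟨T₂, n₂, h₂⟩ := D.no_double_exit K hK
  obtain ⟨T₆, n₆, h₆⟩ := D.right_close K T₂
  obtain ⟨T₅, T₇, n₇, h₇⟩ := D.share K hK T₂
  choose N hN using D.exists_N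
  refine ⟨max T₂ (max T₅ (2 * T₆ + T₇ + T₆ + T₇)), max n₂ (max n₆ n₇), fun w hw s hs => ?_⟩
  by_contra hfar
  have hm : ∀ m, m ≤ max n₂ (max n₆ n₇) → D.Cl w m K := fun m hm x hx => hw x (hx.trans hm)
  have hT : ∀ R, R ≤ max T₂ (max T₅ (2 * T₆ + T₇ + T₆ + T₇)) → ¬ D.Near w R s :=
    fun R hR h => hfar (nbhd_mono hR _ h)
  have hr : ∀ s : ℤ, 0 ≤ s → D.Near w T₂ s := by
    rcases h₂ w (hm _ (le_max_left _ _)) with h | h
    · exact h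
    · exact absurd (h s hs) (hT _ (le_max_left _ _))
  have hRC := h₆ w (hm _ ((le_max_left _ _).trans (le_max_right _ _))) hr
  have hsh := h₇ (w.mono (QW.le_Kc K))
    (fun x hx => (hw x (hx.trans ((le_max_right _ _).trans (le_max_right _ _)))).trans
      (QW.le_Kc K)) hr
    ⟨s, hs, hT _ ((le_max_left _ _).trans (le_max_right _ _))⟩
  have hw1 : wdist D.S (w.f 1) 1 ≤ K := hw 1 (by rw [wdist_self]; exact Nat.zero_le _)
  exact hT _ ((le_max_right _ _).trans (le_max_right _ _))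
    (D.lf_core N hN T₆ T₇ n₇ w hw1 hRC hsh s)

theorem lft (K : ℕ) (hK : 1 ≤ K) : ∃ T n : ℕ, ∀ w : QW D.S D.S K, D.Cl w n K →
    ∀ s : ℤ, D.Near w T s := by
  obtain ⟨T₁, n₁, h₁⟩ := D.lft_left K hK
  obtain ⟨T₂, n₂, h₂⟩ := D.flip.lft_left K hK
  refine ⟨max T₁ T₂, max n₁ n₂, fun w hw s => ?_⟩
  have hm : ∀ m, m ≤ max n₁ n₂ → D.Cl w m K := fun m hm x hx => hw x (hx.trans hm)
  rcases le_total s 0 with hs | hs
  · exact nbhd_mono (le_max_left _ _) _ (h₁ w (hm _ (le_max_left _ _)) s hs)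
  · have := h₂ w (hm _ (le_max_right _ _)) (-s) (by omega)
    have e : D.flip.c ^ (-s) = D.c ^ s := by
      show D.c⁻¹ ^ (-s) = D.c ^ s
      rw [inv_zpow, zpow_neg, inv_inv]
    have h3 : D.flip.c ^ (-s) ∈ nbhd D.S T₂ (D.L w) := this
    rw [e] at h3
    exact nbhd_mono (le_max_right _ _) _ h3

end Sp

end Pool.Agent.QIS
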