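import Pool.Agent.H67.W3.Three

/-!
# If the tree is a line, the group is virtually free abelian of rank two
-/

set_option autoImplicit false

namespace Pool.Agent.QIS

/-- `G` has a subgroup of finite index isomorphic to the free abelian group of rank two -/
def VirtZ2 (G : Type) [Group G] : Prop :=
  ∃ N : Subgroup G, N.FiniteIndex ∧ Nonempty (N ≃* Multiplicative (ℤ × ℤ))

section LC

/-! ### automorphisms of two-ended groups -/

theorem lc_relIndex {H : Type} [Group H] {z : H} (hinf : ∀ n : ℕ, 0 < n → z ^ n ≠ 1) (q : ℤ) :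
    (Subgroup.zpowers (z ^ q)).relIndex (Subgroup.zpowers z) = q.natAbs := by
  let f : Multiplicative ℤ →* H := zpowersHom H z
  have hf : Function.Injective f := by
    intro x y hxy
    have h1 : z ^ (Multiplicative.toAdd x) = z ^ (Multiplicative.toAdd y) := hxy
    exact Multiplicative.toAdd.injective (q2_zpow_inj hinf h1)
  have h1 : (Subgroup.zpowers (Multiplicative.ofAdd q)).map f = Subgroup.zpowers (z ^ q) := by
    rw [MonoidHom.map_zpowers]
    rfl
  have h2 : (⊤ : Subgroup (Multiplicative ℤ)).map f = Subgroup.zpowers z := by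
    rw [← MonoidHom.range_eq_map]
    rfl
  rw [← h1, ← h2, Subgroup.relIndex_map_map_of_injective _ _ hf, Subgroup.relIndex_top_right]
  have h3 := Int.index_zmultiples q
  exact h3

theorem lc_aut {H : Type} [Group H] {z : H} (hinf : ∀ n : ℕ, 0 < n → z ^ n ≠ 1)
    (hz : (Subgroup.zpowers z).FiniteIndex) (θ : H ≃* H) :
    ∃ p : ℕ, 0 < p ∧ (θ (z ^ p) = z ^ p ∨ θ (z ^ p) = (z ^ p)⁻¹) := by
  obtain ⟨p, hp, -, hm⟩ := Subgroup.exists_pow_mem_of_index_ne_zero hz.index_ne_zero (θ z)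
  obtain ⟨q, hq⟩ := Subgroup.mem_zpowers_iff.1 hm
  have hinf' : ∀ n : ℕ, 0 < n → (θ z) ^ n ≠ 1 := by
    intro n hn h
    refine hinf n hn (θ.injective ?_)
    rw [map_pow, h, map_one]
  have h1 : (Subgroup.zpowers (θ z)).index = (Subgroup.zpowers z).index := by
    rw [← Subgroup.index_map_equiv (Subgroup.zpowers z) θ]
    congr 1
    rw [MonoidHom.map_zpowers]
    rfl
  have h2 := Subgroup.relIndex_mul_index
    (H := Subgroup.zpowers (z ^ q)) (K := Subgroup.zpowers z) (by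
      rw [Subgroup.zpowers_le]; exact Subgroup.zpow_mem _ (Subgroup.mem_zpowers z) q)
  have h3 := Subgroup.relIndex_mul_index
    (H := Subgroup.zpowers ((θ z) ^ (p : ℤ))) (K := Subgroup.zpowers (θ z)) (by
      rw [Subgroup.zpowers_le]; exact Subgroup.zpow_mem _ (Subgroup.mem_zpowers _) _)
  rw [lc_relIndex hinf] at h2
  rw [lc_relIndex hinf', h1, zpow_natCast, ← hq, ← h2] at h3
  have h4 : p = q.natAbs := by
    have := Nat.eq_of_mul_eq_mul_right (Nat.pos_of_ne_zero hz.index_ne_zero) h3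
    simpa using this
  refine ⟨p, hp, ?_⟩
  rw [map_pow, ← hq]
  rcases Int.natAbs_eq q with h5 | h5
  · left
    rw [h5, ← h4, zpow_natCast]
  · right
    rw [h5, ← h4, zpow_neg, zpow_natCast]

/-! ### darts -/

/-- oriented edges -/
def DD {G : Type} [Group G] (E : Splitting G) : Type := {p : E.V × E.V // E.T.Adj p.1 p.2}

variable {G : Type} [Group G] (E : Splitting G)

instance : MulAction G (DD E) where
  smul g p := ⟨(g • p.1.1, g • p.1.2), E.map_adj g p.2⟩
  one_smul p := Subtype.ext (Prod.ext (one_smul G p.1.1) (one_smul G p.1.2))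
  mul_smul g h p := Subtype.ext (Prod.ext (mul_smul g h p.1.1) (mul_smul g h p.1.2))

theorem lc_smul (g : G) (p : DD E) : g • p = ⟨(g • p.1.1, g • p.1.2), E.map_adj g p.2⟩ := rfl

/-- the opposite -/
def lcRev (p : DD E) : DD E := ⟨(p.1.2, p.1.1), p.2.symm⟩

theorem lcRev_smul (g : G) (p : DD E) : g • lcRev E p = lcRev E (g • p) := rfl

/-- the base edge -/
def lcBase : DD E := ⟨(E.a, E.b), E.adj⟩

theorem lc_trans (p : DD E) : ∃ g : G, g • lcBase E = p ∨ g • lcBase E = lcRev E p := by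
  obtain ⟨g, hg⟩ := E.edge_trans p.2
  refine ⟨g, hg.imp ?_ ?_⟩
  · rintro ⟨h1, h2⟩
    exact Subtype.ext (Prod.ext h1 h2)
  · rintro ⟨h1, h2⟩
    exact Subtype.ext (Prod.ext h1 h2)

variable {E}

/-- each vertex has exactly two neighbours -/
theorem lc_two (hv : ¬ Branch E) {x y : E.V} (hxy : E.T.Adj x y) :
    ∃ z, E.T.Adj y z ∧ z ≠ x ∧ ∀ w, E.T.Adj y w → w = x ∨ w = z := by
  have h1 : ∃ z, E.T.Adj y z ∧ z ≠ x := by
    by_contra hcon
    push Not at hcon
    have hleaf : q5_leaf E.T y := ⟨x, hxy.symm, hcon⟩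
    apply q5_no_leaf E
    intro p q hpq
    obtain ⟨g, hg⟩ := E.edge_trans hpq
    obtain ⟨k, hk⟩ := E.edge_trans hxy
    have key : q5_leaf E.T (g • E.a) ∨ q5_leaf E.T (g • E.b) := by
      rcases hk with ⟨_, h2⟩ | ⟨h1, _⟩
      · right
        have h3 := q5_leaf_smul E (g * k⁻¹) hleaf
        rw [← h2, mul_smul, inv_smul_smul] at h3
        exact h3
      · left
        have h3 := q5_leaf_smul E (g * k⁻¹) hleaf
        rw [← h1, mul_smul, inv_smul_smul] at h3
        exact h3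
    rcases hg with ⟨h1, h2⟩ | ⟨h1, h2⟩
    · rw [h1, h2] at key
      exact key
    · rw [h1, h2] at key
      exact key.symm
  obtain ⟨z, hz, hzx⟩ := h1
  refine ⟨z, hz, hzx, fun w hw => ?_⟩
  by_contra hcon
  push Not at hcon
  exact hv ⟨y, x, z, w, hxy.symm, hz, hw, hzx.symm, hcon.2.symm, hcon.1.symm⟩

/-- the next dart -/
theorem lc_next (hv : ¬ Branch E) : ∃ s : Equiv.Perm (DD E),
    (∀ p, (s p).1.1 = p.1.2 ∧ (s p).1.2 ≠ p.1.1) ∧
    (∀ p, lcRev E (s (lcRev E (s p))) = p) := by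
  choose f hf1 hf2 hf3 using fun p : DD E => lc_two hv p.2
  let s : DD E → DD E := fun p => ⟨(p.1.2, f p), hf1 p⟩
  have hs : ∀ p, lcRev E (s (lcRev E (s p))) = p := by
    intro p
    have h1 : f (lcRev E (s p)) = p.1.1 := by
      have h2 := hf1 (lcRev E (s p))
      have h3 := hf2 (lcRev E (s p))
      rcases hf3 p _ h2 with h4 | h4
      · exact h4
      · exact absurd h4 h3
    exact Subtype.ext (Prod.ext h1 rfl)
  have hr : ∀ p : DD E, lcRev E (lcRev E p) = p := fun p => rfl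
  refine ⟨⟨s, fun p => lcRev E (s (lcRev E p)), hs, fun p => ?_⟩, fun p => ⟨rfl, hf2 p⟩, hs⟩
  have h1 := hs (lcRev E p)
  have h2 := congrArg (lcRev E) h1
  exact h2

theorem lc_unique (hv : ¬ Branch E) {x y z w : E.V} (hx : E.T.Adj y x) (hz : E.T.Adj y z)
    (hw : E.T.Adj y w) (hzx : z ≠ x) (hwx : w ≠ x) : z = w := by
  by_contra hne
  exact hv ⟨y, x, z, w, hx, hz, hw, hzx.symm, hne, hwx.symm⟩

/-- an element that fixes the base edge fixes everything -/
theorem lc_fix (hv : ¬ Branch E) {g : G} (hg : g ∈ E.edgeGroup) (x : E.V) : g • x = x := by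
  have hga : g • E.a = E.a := hg.1
  have hgb : g • E.b = E.b := hg.2
  -- if `x` and one neighbour are fixed then all neighbours are fixed
  have step : ∀ x y : E.V, E.T.Adj x y → g • x = x → g • y = y → ∀ z, E.T.Adj x z → g • z = z := by
    intro x y hxy hx hy z hz
    by_cases hzy : z = y
    · rw [hzy, hy]
    · have h1 : E.T.Adj x (g • z) := by
        have := E.map_adj g hz
        rwa [hx] at this
      refine (lc_unique hv hxy hz h1 hzy ?_).symm
      intro h2
      rw [← hy] at h2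
      exact hzy (MulAction.injective g h2)
  have key : ∀ x : E.V, (g • x = x ∧ ∀ z, E.T.Adj x z → g • z = z) := by
    intro x
    have h0 := (SimpleGraph.reachable_iff_reflTransGen E.a x).1
      (E.tree.connected.preconnected E.a x)
    induction h0 with
    | refl => exact ⟨hga, step _ _ E.adj hga hgb⟩
    | tail _ hyz ih =>
      rename_i y z _
      have hz := ih.2 z hyz
      exact ⟨hz, step _ _ hyz.symm hz ih.1⟩
  exact (key x).1

theorem lc_mem (g : G) (h : g • lcBase E = lcBase E) : g ∈ E.edgeGroup := by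
  have h1 := congrArg (fun p : DD E => p.1) h
  exact ⟨congrArg Prod.fst h1, congrArg Prod.snd h1⟩

theorem lc_normal (hv : ¬ Branch E) : (E.edgeGroup).Normal := by
  constructor
  intro n hn g
  have h : ∀ x : E.V, (g * n * g⁻¹) • x = x := by
    intro x
    rw [mul_smul, mul_smul, lc_fix hv hn, smul_inv_smul]
  exact ⟨h _, h _⟩

/-- the action commutes with the shift -/
theorem lc_comm (hv : ¬ Branch E) {s : Equiv.Perm (DD E)}
    (hs : ∀ p, (s p).1.1 = p.1.2 ∧ (s p).1.2 ≠ p.1.1) (g : G) (p : DD E) :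
    g • s p = s (g • p) := by
  have h1 : (g • s p).1.1 = (s (g • p)).1.1 := by
    rw [(hs (g • p)).1]
    show g • (s p).1.1 = g • p.1.2
    rw [(hs p).1]
  refine Subtype.ext (Prod.ext h1 ?_)
  refine lc_unique hv (x := (g • p).1.1) (y := (g • p).1.2) (g • p).2.symm ?_ ?_ ?_ (hs _).2
  · have := (g • s p).2
    rw [h1, (hs (g • p)).1] at this
    exact this
  · have := (s (g • p)).2
    rw [(hs (g • p)).1] at this
    exact this
  · intro h2
    exact (hs p).2 (MulAction.injective g h2)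

/-- every vertex is the origin of a dart of the line -/
theorem lc_vertex (hv : ¬ Branch E) {s : Equiv.Perm (DD E)}
    (hs : ∀ p, (s p).1.1 = p.1.2 ∧ (s p).1.2 ≠ p.1.1) (x : E.V) :
    ∃ k : ℤ, ((s ^ k) (lcBase E)).1.1 = x := by
  have h0 := (SimpleGraph.reachable_iff_reflTransGen E.a x).1
    (E.tree.connected.preconnected E.a x)
  induction h0 with
  | refl => exact ⟨0, rfl⟩
  | tail _ hyz ih =>
    rename_i y z _
    obtain ⟨k, hk⟩ := ih
    set p := (s ^ k) (lcBase E) with hp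
    have h1 : (s ^ (k + 1)) (lcBase E) = s p := by
      rw [add_comm, zpow_add, zpow_one]; rfl
    have h2 : s ((s ^ (k - 1)) (lcBase E)) = p := by
      rw [hp, show s ((s ^ (k - 1)) (lcBase E)) = (s * s ^ (k - 1)) (lcBase E) from rfl,
        ← zpow_one_add]
      congr 2
      ring
    set r := (s ^ (k - 1)) (lcBase E) with hr
    by_cases hz : z = r.1.1
    · exact ⟨k - 1, hz.symm⟩
    · refine ⟨k + 1, ?_⟩
      rw [h1, (hs p).1]
      have h3 : r.1.2 = y := by
        rw [← (hs r).1, h2, hk]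
      have h4 : E.T.Adj y r.1.1 := by
        have := r.2.symm
        rwa [h3] at this
      have h5 : E.T.Adj y p.1.2 := by
        have := p.2
        rwa [hk] at this
      refine lc_unique hv h4 h5 hyz ?_ hz
      have := (hs r).2
      rwa [h2] at this

/-- every dart lies on the line, up to orientation -/
theorem lc_dart (hv : ¬ Branch E) {s : Equiv.Perm (DD E)}
    (hs : ∀ p, (s p).1.1 = p.1.2 ∧ (s p).1.2 ≠ p.1.1) (q : DD E) :
    ∃ k : ℤ, (s ^ k) (lcBase E) = q ∨ (s ^ k) (lcBase E) = lcRev E q := by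
  obtain ⟨k, hk⟩ := lc_vertex hv hs q.1.1
  set p := (s ^ k) (lcBase E) with hp
  have h2 : s ((s ^ (k - 1)) (lcBase E)) = p := by
    rw [hp, show s ((s ^ (k - 1)) (lcBase E)) = (s * s ^ (k - 1)) (lcBase E) from rfl,
      ← zpow_one_add]
    congr 2
    ring
  set r := (s ^ (k - 1)) (lcBase E) with hr
  have h3 : r.1.2 = q.1.1 := by
    rw [← (hs r).1, h2, hk]
  by_cases hz : q.1.2 = r.1.1
  · refine ⟨k - 1, Or.inr ?_⟩
    exact Subtype.ext (Prod.ext hz.symm h3)
  · refine ⟨k, Or.inl ?_⟩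
    refine Subtype.ext (Prod.ext hk ?_)
    have h4 : E.T.Adj q.1.1 r.1.1 := by
      have := r.2.symm
      rwa [h3] at this
    have h5 : E.T.Adj q.1.1 p.1.2 := by
      have := p.2
      rwa [hk] at this
    refine lc_unique hv h4 h5 q.2 ?_ hz
    have := (hs r).2
    rwa [h2] at this

/-- the line is infinite -/
theorem lc_free (hv : ¬ Branch E) {s : Equiv.Perm (DD E)}
    (hs : ∀ p, (s p).1.1 = p.1.2 ∧ (s p).1.2 ≠ p.1.1) {k : ℤ} (hk : k ≠ 0) :
    (s ^ k) (lcBase E) ≠ lcBase E := by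
  intro h
  -- the set of vertices is finite
  have hfin : (Set.univ : Set E.V).Finite := by
    refine ((Set.finite_Ico (0 : ℤ) |k|).image
      (fun i => ((s ^ i) (lcBase E)).1.1)).subset fun x _ => ?_
    obtain ⟨j, hj⟩ := lc_vertex hv hs x
    refine ⟨j % |k|, ⟨Int.emod_nonneg _ (abs_ne_zero.2 hk),
      Int.emod_lt_of_pos _ (abs_pos.2 hk)⟩, ?_⟩
    rw [← hj]
    have h1 : ∀ i : ℤ, ((s ^ |k|) ^ i) (lcBase E) = lcBase E := by
      intro i
      refine Equiv.Perm.zpow_apply_eq_self_of_apply_eq_self ?_ i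
      rcases abs_choice k with h2 | h2
      · rw [h2, h]
      · rw [h2, zpow_neg, Equiv.Perm.inv_eq_iff_eq]
        exact h.symm
    have h3 : s ^ j = s ^ (j % |k|) * (s ^ |k|) ^ (j / |k|) := by
      rw [← zpow_mul, ← zpow_add, Int.emod_add_mul_ediv]
    have h4 : (s ^ (j % |k|)) (lcBase E) = (s ^ j) (lcBase E) := by
      rw [h3, Equiv.Perm.mul_apply, h1]
    exact congrArg (fun q : DD E => q.1.1) h4
  obtain ⟨h1, -⟩ := E.unbdd
  -- distances are bounded
  obtain ⟨B, hB⟩ : ∃ B : ℕ, ∀ y : E.V, E.T.dist E.a y < B := by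
    have h2 := hfin.image (fun y => E.T.dist E.a y)
    obtain ⟨B, hB⟩ := h2.bddAbove
    exact ⟨B + 1, fun y => Nat.lt_succ_of_le (hB ⟨y, trivial, rfl⟩)⟩
  obtain ⟨y, -, hy⟩ := h1 E.a B
  exact absurd (hB y) (not_lt.2 hy)

/-- a translation -/
theorem lc_t (hv : ¬ Branch E) {s : Equiv.Perm (DD E)}
    (hs : ∀ p, (s p).1.1 = p.1.2 ∧ (s p).1.2 ≠ p.1.1) :
    ∃ (t : G) (n : ℕ), 0 < n ∧ t • lcBase E = (s ^ (n : ℤ)) (lcBase E) := by
  obtain ⟨g₁, h₁⟩ := lc_trans E (s (lcBase E))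
  obtain ⟨g₂, h₂⟩ := lc_trans E (s (s (lcBase E)))
  rcases h₁ with h₁ | h₁
  · exact ⟨g₁, 1, one_pos, by rw [h₁]; simp⟩
  rcases h₂ with h₂ | h₂
  · refine ⟨g₂, 2, two_pos, ?_⟩
    rw [h₂, show ((2 : ℕ) : ℤ) = 1 + 1 by norm_num, zpow_add, zpow_one]
    rfl
  · refine ⟨g₂ * g₁⁻¹, 1, one_pos, ?_⟩
    have h3 : (g₂ * g₁⁻¹) • lcRev E (s (lcBase E)) = lcRev E (s (s (lcBase E))) := by
      rw [← h₁, mul_smul, inv_smul_smul, h₂]
    rw [lcRev_smul] at h3
    have h4 : (g₂ * g₁⁻¹) • s (lcBase E) = s (s (lcBase E)) := congrArg (lcRev E) h3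
    rw [lc_comm hv hs] at h4
    have h5 := s.injective h4
    rw [h5]
    simp

theorem lc_zpow (hv : ¬ Branch E) {s : Equiv.Perm (DD E)}
    (hs : ∀ p, (s p).1.1 = p.1.2 ∧ (s p).1.2 ≠ p.1.1) {t : G} {n : ℤ}
    (ht : t • lcBase E = (s ^ n) (lcBase E)) (j : ℤ) :
    t ^ j • lcBase E = (s ^ (n * j)) (lcBase E) := by
  have hc : ∀ (g : G) (k : ℤ) (p : DD E), g • (s ^ k) p = (s ^ k) (g • p) := by
    intro g k p
    have h1 : Commute (MulAction.toPerm g : Equiv.Perm (DD E)) s :=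
      Equiv.ext fun q => lc_comm hv hs g q
    have h2 := h1.zpow_right k
    exact congrArg (fun e : Equiv.Perm (DD E) => e p) h2
  induction j using Int.induction_on with
  | zero => simp
  | succ i ih =>
    rw [zpow_add, mul_smul, zpow_one, ht, hc, ih, ← Equiv.Perm.mul_apply, ← zpow_add]
    congr 2
    ring
  | pred i ih =>
    have h1 : t⁻¹ • lcBase E = (s ^ (-n)) (lcBase E) := by
      rw [inv_smul_eq_iff, hc, ht, ← Equiv.Perm.mul_apply, ← zpow_add]
      simp
    rw [zpow_sub, mul_smul, zpow_one, h1, hc, ih, ← Equiv.Perm.mul_apply, ← zpow_add]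
    congr 2
    ring

end LC

/-- a group with a splitting over a two-ended group is virtually free abelian of rank two, if each
vertex of the tree has at most two neighbours -/
theorem virtZ2_of_line {G : Type} [Group G] (E : Splitting G) (hC : TwoEnded E.edgeGroup)
    (hv : ¬ Branch E) : VirtZ2 G := by
  classical
  obtain ⟨s, hs, -⟩ := lc_next hv
  obtain ⟨t, n, hn, ht⟩ := lc_t hv hs
  have := lc_normal hv
  obtain ⟨z, hinf, hz⟩ := hC
  obtain ⟨p, hp, hθ⟩ := lc_aut hinf hz (MulAut.conjNormal t : MulAut E.edgeGroup)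
  set w : G := (z : G) ^ p with hw
  have hwC : w ∈ E.edgeGroup := E.edgeGroup.pow_mem z.2 p
  have htw : t * w * t⁻¹ = w ∨ t * w * t⁻¹ = w⁻¹ := by
    have e1 : (((MulAut.conjNormal t : MulAut E.edgeGroup) (z ^ p) : E.edgeGroup) : G) =
        t * w * t⁻¹ := by
      rw [MulAut.conjNormal_apply, Subgroup.coe_pow]
    rcases hθ with h | h
    · left
      rw [← e1, h, Subgroup.coe_pow]
    · right
      rw [← e1, h, Subgroup.coe_inv, Subgroup.coe_pow]
  set u : G := t ^ (2 : ℤ) with hu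
  have hcomm : Commute w u := by
    have h1 : t * (t * w * t⁻¹) * t⁻¹ = w := by
      rcases htw with h | h
      · rw [h, h]
      · rw [h]
        have h2 : t * w⁻¹ * t⁻¹ = (t * w * t⁻¹)⁻¹ := by group
        rw [h2, h, inv_inv]
    have h2 : u * w * u⁻¹ = w := by
      refine Eq.trans ?_ h1
      rw [hu, zpow_two, mul_inv_rev]
      simp only [mul_assoc]
    exact (mul_inv_eq_iff_eq_mul.1 h2).symm
  let φ : Multiplicative (ℤ × ℤ) →* G :=
    { toFun := fun x => w ^ (Multiplicative.toAdd x).1 * u ^ (Multiplicative.toAdd x).2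
      map_one' := by simp
      map_mul' := by
        intro x y
        rw [toAdd_mul, Prod.fst_add, Prod.snd_add, zpow_add, zpow_add]
        have h1 : Commute (w ^ (Multiplicative.toAdd y).1) (u ^ (Multiplicative.toAdd x).2) :=
          (hcomm.zpow_left _).zpow_right _
        rw [mul_assoc, mul_assoc, ← mul_assoc (w ^ (Multiplicative.toAdd y).1), h1.eq]
        simp only [mul_assoc] }
  have hφ : ∀ i j : ℤ, φ (Multiplicative.ofAdd (i, j)) = w ^ i * u ^ j := fun i j => rfl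
  have hfixC : ∀ g ∈ E.edgeGroup, g • lcBase E = lcBase E := by
    intro g hg
    exact Subtype.ext (Prod.ext hg.1 hg.2)
  have hinj : Function.Injective φ := by
    rw [injective_iff_map_eq_one]
    intro x hx
    obtain ⟨i, j⟩ := x
    have hx' : w ^ i * u ^ j = 1 := hx
    have h1 : u ^ j = (w ^ i)⁻¹ := by rw [eq_inv_iff_mul_eq_one, ← hx']; exact
      ((hcomm.zpow_left i).zpow_right j).eq.symm
    have h2 : u ^ j ∈ E.edgeGroup := by
      rw [h1]; exact E.edgeGroup.inv_mem (E.edgeGroup.zpow_mem hwC i)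
    have h3 := hfixC _ h2
    rw [hu, ← zpow_mul, lc_zpow hv hs ht] at h3
    have hj : j = 0 := by
      by_contra hj
      refine lc_free hv hs ?_ h3
      have : (n : ℤ) ≠ 0 := by exact_mod_cast hn.ne'
      exact mul_ne_zero this (mul_ne_zero two_ne_zero hj)
    rw [hj, zpow_zero, mul_one] at hx'
    have hi : i = 0 := by
      by_contra hi
      refine q2_zpow_ne hinf (m := (p : ℤ) * i) ?_ ?_
      · have : (p : ℤ) ≠ 0 := by exact_mod_cast hp.ne'
        exact mul_ne_zero this hi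
      · apply Subtype.ext
        rw [Subgroup.coe_zpow, Subgroup.coe_one, zpow_mul, zpow_natCast]
        exact hx'
    rw [hi, hj]
    rfl
  refine ⟨φ.range, ?_, ⟨(MonoidHom.ofInjective hinj).symm⟩⟩
  -- finite index
  obtain ⟨F₁, hF₁, hcov⟩ := q2_cover _ (q2_pow_index z hz p hp)
  have hrep : ∀ x : DD E, ∃ r : G, (∃ g : G, g • lcBase E = x) → r • lcBase E = x := by
    intro x
    by_cases h : ∃ g : G, g • lcBase E = x
    · obtain ⟨g, hg⟩ := h
      exact ⟨g, fun _ => hg⟩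
    · exact ⟨1, fun h' => absurd h' h⟩
  choose rep hrep using hrep
  let X : Set (DD E) := ((fun i : ℤ => (s ^ i) (lcBase E)) '' Set.Ico 0 n) ∪
    ((fun i : ℤ => lcRev E ((s ^ i) (lcBase E))) '' Set.Ico 0 n)
  have hX : X.Finite := ((Set.finite_Ico _ _).image _).union ((Set.finite_Ico _ _).image _)
  let Fe : Set G := {1, t}
  have hFe : Fe.Finite := Set.toFinite _
  refine q2_finiteIndex_of_cover _
    (Set.image2 (fun (y : G) (e : G) => y * e)
      (Set.image2 (fun (x : DD E) (f : E.edgeGroup) => (rep x)⁻¹ * (f : G)) X F₁) Fe)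
    ((hX.image2 _ hF₁).image2 _ hFe) fun g => ?_
  -- the representative
  have hn0 : (0 : ℤ) < n := by exact_mod_cast hn
  obtain ⟨x, hx, m, hxm⟩ : ∃ x ∈ X, ∃ m : ℤ, (t ^ m * g⁻¹) • lcBase E = x := by
    obtain ⟨k, hk⟩ := lc_dart hv hs (g⁻¹ • lcBase E)
    have hc : ∀ (g : G) (k : ℤ) (p : DD E), g • (s ^ k) p = (s ^ k) (g • p) := by
      intro g k p
      have h1 : Commute (MulAction.toPerm g : Equiv.Perm (DD E)) s :=
        Equiv.ext fun q => lc_comm hv hs g q
      have h2 := h1.zpow_right k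
      exact congrArg (fun e : Equiv.Perm (DD E) => e p) h2
    have hk' : t ^ (-(k / n)) • (s ^ k) (lcBase E) = (s ^ (k % n)) (lcBase E) := by
      rw [hc, lc_zpow hv hs ht, ← Equiv.Perm.mul_apply, ← zpow_add]
      congr 2
      have := Int.emod_add_mul_ediv k n
      linarith
    have hmem : k % n ∈ Set.Ico (0 : ℤ) n :=
      ⟨Int.emod_nonneg _ hn0.ne', Int.emod_lt_of_pos _ hn0⟩
    rcases hk with hk | hk
    · refine ⟨_, Or.inl ⟨k % n, hmem, rfl⟩, -(k / n), ?_⟩
      rw [mul_smul, ← hk, hk']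
    · refine ⟨_, Or.inr ⟨k % n, hmem, rfl⟩, -(k / n), ?_⟩
      show _ = lcRev E ((s ^ (k % n)) (lcBase E))
      rw [← hk', hk, lcRev_smul, mul_smul]
      rfl
  have h1 : rep x • lcBase E = x := hrep x ⟨_, hxm⟩
  have h2 : (rep x)⁻¹ * (t ^ m * g⁻¹) ∈ E.edgeGroup := by
    refine lc_mem _ ?_
    rw [mul_smul, hxm, inv_smul_eq_iff, h1]
  -- `g = c⁻¹ (rep x)⁻¹ t ^ m`
  set c : G := (rep x)⁻¹ * (t ^ m * g⁻¹) with hc
  have hg : g = c⁻¹ * (rep x)⁻¹ * t ^ m := by rw [hc]; group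
  have hc' : rep x * c⁻¹ * (rep x)⁻¹ ∈ E.edgeGroup :=
    this.conj_mem _ (E.edgeGroup.inv_mem h2) _
  obtain ⟨f, hf, hfc⟩ := hcov ⟨_, hc'⟩
  obtain ⟨l, hl⟩ := Subgroup.mem_zpowers_iff.1 hfc
  have hl' : rep x * c⁻¹ * (rep x)⁻¹ = (f : G) * w ^ l := by
    have := congrArg (fun y : E.edgeGroup => (y : G)) hl
    simp only [Subgroup.coe_zpow, Subgroup.coe_pow, Subgroup.coe_mul, Subgroup.coe_inv] at this
    rw [hw, this]; group
  have hg' : g = (rep x)⁻¹ * (f : G) * w ^ l * t ^ m := by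
    rw [mul_assoc _ (f : G), ← hl', hg]; group
  -- move `w ^ l` past `t`
  have hmod : m % 2 = 0 ∨ m % 2 = 1 := Int.emod_two_eq_zero_or_one m
  rcases hmod with h0 | h0
  · refine ⟨(rep x)⁻¹ * (f : G) * 1, ⟨_, ⟨x, hx, f, hf, rfl⟩, 1, Or.inl rfl, rfl⟩, ?_⟩
    refine ⟨Multiplicative.ofAdd (l, m / 2), ?_⟩
    rw [hφ]
    have h3 : t ^ m = u ^ (m / 2) := by
      rw [hu, ← zpow_mul]
      congr 1
      omega
    rw [hg', h3]; group
  · have h3 : t ^ m = t * u ^ (m / 2) := by
      rw [hu, ← zpow_mul, ← zpow_one_add]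
      congr 1
      omega
    obtain ⟨l', hl''⟩ : ∃ l' : ℤ, w ^ l * t = t * w ^ l' := by
      rcases htw with h | h
      · refine ⟨l, ?_⟩
        have h4 : Commute t w := mul_inv_eq_iff_eq_mul.1 h
        exact (h4.zpow_right l).eq.symm
      · refine ⟨-l, ?_⟩
        have h4 : SemiconjBy t w w⁻¹ := mul_inv_eq_iff_eq_mul.1 h
        have h5 := h4.zpow_right (-l)
        rw [inv_zpow, zpow_neg, inv_inv] at h5
        rw [zpow_neg]
        exact h5.eq.symm
    refine ⟨(rep x)⁻¹ * (f : G) * t, ⟨_, ⟨x, hx, f, hf, rfl⟩, t, Or.inr rfl, rfl⟩, ?_⟩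
    refine ⟨Multiplicative.ofAdd (l', m / 2), ?_⟩
    rw [hφ]
    have h6 : g = (rep x)⁻¹ * (f : G) * (w ^ l * t) * u ^ (m / 2) := by
      rw [hg', h3]; group
    rw [h6, hl'']; group

end Pool.Agent.QIS
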