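import Pool.Agent.H67.W3.LineCase

/-!
# If the tree is a line, some quasi-isometry moves the edge group across itself
-/

set_option autoImplicit false

namespace Pool.Agent.QIS

/-- the structure of a group with a splitting over a two-ended group whose tree is a line -/
theorem lc_struct {G : Type} [Group G] (E : Splitting G) (hC : TwoEnded E.edgeGroup)
    (hv : ¬ Branch E) : ∃ s : Equiv.Perm (DD E),
    (∀ p, (s p).1.1 = p.1.2 ∧ (s p).1.2 ≠ p.1.1) ∧
    ∃ (φ : Multiplicative (ℤ × ℤ) →* G) (n : ℤ), 0 < n ∧ Function.Injective φ ∧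
      φ.range.FiniteIndex ∧ (∀ i : ℤ, φ (Multiplicative.ofAdd (i, (0 : ℤ))) ∈ E.edgeGroup) ∧
      (∀ j : ℤ, φ (Multiplicative.ofAdd ((0 : ℤ), j)) • lcBase E = (s ^ (n * j)) (lcBase E)) := by
  classical
  obtain ⟨s, hs, -⟩ := lc_next hv
  obtain ⟨t, n, hn, ht⟩ := lc_t hv hs
  have := lc_normal hv
  obtain ⟨z, hinf, hz⟩ := hC
  obtain ⟨p, hp, hθ⟩ := lc_aut hinf hz (MulAut.conjNormal t : MulAut E.edgeGroup)
  set w : G := (z : G) ^ p with hw
  have hwC : w ∈ E.edgeGroup := E.edgeGroup.pow_mem z.2 p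
  have htw : t * w * t⁻¹ = w ∨ t * w * t⁻¹ = w⁻¹ := by
    have e1 : (((MulAut.conjNormal t : MulAut E.edgeGroup) (z ^ p) : E.edgeGroup) : G) =
        t * w * t⁻¹ := by
      rw [MulAut.conjNormal_apply, Subgroup.coe_pow]
    rcases hθ with h | h
    · left
      rw [← e1, h, Subgroup.coe_pow]
    · right
      rw [← e1, h, Subgroup.coe_inv, Subgroup.coe_pow]
  set u : G := t ^ (2 : ℤ) with hu
  have hcomm : Commute w u := by
    have h1 : t * (t * w * t⁻¹) * t⁻¹ = w := by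
      rcases htw with h | h
      · rw [h, h]
      · rw [h]
        have h2 : t * w⁻¹ * t⁻¹ = (t * w * t⁻¹)⁻¹ := by group
        rw [h2, h, inv_inv]
    have h2 : u * w * u⁻¹ = w := by
      refine Eq.trans ?_ h1
      rw [hu, zpow_two, mul_inv_rev]
      simp only [mul_assoc]
    exact (mul_inv_eq_iff_eq_mul.1 h2).symm
  let φ : Multiplicative (ℤ × ℤ) →* G :=
    { toFun := fun x => w ^ (Multiplicative.toAdd x).1 * u ^ (Multiplicative.toAdd x).2
      map_one' := by simp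
      map_mul' := by
        intro x y
        rw [toAdd_mul, Prod.fst_add, Prod.snd_add, zpow_add, zpow_add]
        have h1 : Commute (w ^ (Multiplicative.toAdd y).1) (u ^ (Multiplicative.toAdd x).2) :=
          (hcomm.zpow_left _).zpow_right _
        rw [mul_assoc, mul_assoc, ← mul_assoc (w ^ (Multiplicative.toAdd y).1), h1.eq]
        simp only [mul_assoc] }
  have hφ : ∀ i j : ℤ, φ (Multiplicative.ofAdd (i, j)) = w ^ i * u ^ j := fun i j => rfl
  have hfixC : ∀ g ∈ E.edgeGroup, g • lcBase E = lcBase E := by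
    intro g hg
    exact Subtype.ext (Prod.ext hg.1 hg.2)
  have hinj : Function.Injective φ := by
    rw [injective_iff_map_eq_one]
    intro x hx
    obtain ⟨i, j⟩ := x
    have hx' : w ^ i * u ^ j = 1 := hx
    have h1 : u ^ j = (w ^ i)⁻¹ := by rw [eq_inv_iff_mul_eq_one, ← hx']; exact
      ((hcomm.zpow_left i).zpow_right j).eq.symm
    have h2 : u ^ j ∈ E.edgeGroup := by
      rw [h1]; exact E.edgeGroup.inv_mem (E.edgeGroup.zpow_mem hwC i)
    have h3 := hfixC _ h2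
    rw [hu, ← zpow_mul, lc_zpow hv hs ht] at h3
    have hj : j = 0 := by
      by_contra hj
      refine lc_free hv hs ?_ h3
      have : (n : ℤ) ≠ 0 := by exact_mod_cast hn.ne'
      exact mul_ne_zero this (mul_ne_zero two_ne_zero hj)
    rw [hj, zpow_zero, mul_one] at hx'
    have hi : i = 0 := by
      by_contra hi
      refine q2_zpow_ne hinf (m := (p : ℤ) * i) ?_ ?_
      · have : (p : ℤ) ≠ 0 := by exact_mod_cast hp.ne'
        exact mul_ne_zero this hi
      · apply Subtype.ext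
        rw [Subgroup.coe_zpow, Subgroup.coe_one, zpow_mul, zpow_natCast]
        exact hx'
    rw [hi, hj]
    rfl
  have hpos : ∀ j : ℤ, φ (Multiplicative.ofAdd ((0 : ℤ), j)) • lcBase E =
      (s ^ ((n : ℤ) * (2 * j))) (lcBase E) := by
    intro j
    rw [hφ, zpow_zero, one_mul, hu, ← zpow_mul, lc_zpow hv hs ht]
  refine ⟨s, hs, φ, (n : ℤ) * 2, ?_, hinj, ?_, ?_, ?_⟩
  · have : (0 : ℤ) < n := by exact_mod_cast hn
    omega
  rotate_left
  · intro i
    rw [hφ, zpow_zero, mul_one]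
    exact E.edgeGroup.zpow_mem hwC i
  · intro j
    rw [hpos, mul_assoc]
  -- finite index
  obtain ⟨F₁, hF₁, hcov⟩ := q2_cover _ (q2_pow_index z hz p hp)
  have hrep : ∀ x : DD E, ∃ r : G, (∃ g : G, g • lcBase E = x) → r • lcBase E = x := by
    intro x
    by_cases h : ∃ g : G, g • lcBase E = x
    · obtain ⟨g, hg⟩ := h
      exact ⟨g, fun _ => hg⟩
    · exact ⟨1, fun h' => absurd h' h⟩
  choose rep hrep using hrep
  let X : Set (DD E) := ((fun i : ℤ => (s ^ i) (lcBase E)) '' Set.Ico 0 n) ∪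
    ((fun i : ℤ => lcRev E ((s ^ i) (lcBase E))) '' Set.Ico 0 n)
  have hX : X.Finite := ((Set.finite_Ico _ _).image _).union ((Set.finite_Ico _ _).image _)
  let Fe : Set G := {1, t}
  have hFe : Fe.Finite := Set.toFinite _
  refine q2_finiteIndex_of_cover _
    (Set.image2 (fun (y : G) (e : G) => y * e)
      (Set.image2 (fun (x : DD E) (f : E.edgeGroup) => (rep x)⁻¹ * (f : G)) X F₁) Fe)
    ((hX.image2 _ hF₁).image2 _ hFe) fun g => ?_
  -- the representative
  have hn0 : (0 : ℤ) < n := by exact_mod_cast hn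
  obtain ⟨x, hx, m, hxm⟩ : ∃ x ∈ X, ∃ m : ℤ, (t ^ m * g⁻¹) • lcBase E = x := by
    obtain ⟨k, hk⟩ := lc_dart hv hs (g⁻¹ • lcBase E)
    have hc : ∀ (g : G) (k : ℤ) (p : DD E), g • (s ^ k) p = (s ^ k) (g • p) := by
      intro g k p
      have h1 : Commute (MulAction.toPerm g : Equiv.Perm (DD E)) s :=
        Equiv.ext fun q => lc_comm hv hs g q
      have h2 := h1.zpow_right k
      exact congrArg (fun e : Equiv.Perm (DD E) => e p) h2
    have hk' : t ^ (-(k / n)) • (s ^ k) (lcBase E) = (s ^ (k % n)) (lcBase E) := by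
      rw [hc, lc_zpow hv hs ht, ← Equiv.Perm.mul_apply, ← zpow_add]
      congr 2
      have := Int.emod_add_mul_ediv k n
      linarith
    have hmem : k % n ∈ Set.Ico (0 : ℤ) n :=
      ⟨Int.emod_nonneg _ hn0.ne', Int.emod_lt_of_pos _ hn0⟩
    rcases hk with hk | hk
    · refine ⟨_, Or.inl ⟨k % n, hmem, rfl⟩, -(k / n), ?_⟩
      rw [mul_smul, ← hk, hk']
    · refine ⟨_, Or.inr ⟨k % n, hmem, rfl⟩, -(k / n), ?_⟩
      show _ = lcRev E ((s ^ (k % n)) (lcBase E))
      rw [← hk', hk, lcRev_smul, mul_smul]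
      rfl
  have h1 : rep x • lcBase E = x := hrep x ⟨_, hxm⟩
  have h2 : (rep x)⁻¹ * (t ^ m * g⁻¹) ∈ E.edgeGroup := by
    refine lc_mem _ ?_
    rw [mul_smul, hxm, inv_smul_eq_iff, h1]
  -- `g = c⁻¹ (rep x)⁻¹ t ^ m`
  set c : G := (rep x)⁻¹ * (t ^ m * g⁻¹) with hc
  have hg : g = c⁻¹ * (rep x)⁻¹ * t ^ m := by rw [hc]; group
  have hc' : rep x * c⁻¹ * (rep x)⁻¹ ∈ E.edgeGroup :=
    this.conj_mem _ (E.edgeGroup.inv_mem h2) _
  obtain ⟨f, hf, hfc⟩ := hcov ⟨_, hc'⟩
  obtain ⟨l, hl⟩ := Subgroup.mem_zpowers_iff.1 hfc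
  have hl' : rep x * c⁻¹ * (rep x)⁻¹ = (f : G) * w ^ l := by
    have := congrArg (fun y : E.edgeGroup => (y : G)) hl
    simp only [Subgroup.coe_zpow, Subgroup.coe_pow, Subgroup.coe_mul, Subgroup.coe_inv] at this
    rw [hw, this]; group
  have hg' : g = (rep x)⁻¹ * (f : G) * w ^ l * t ^ m := by
    rw [mul_assoc _ (f : G), ← hl', hg]; group
  -- move `w ^ l` past `t`
  have hmod : m % 2 = 0 ∨ m % 2 = 1 := Int.emod_two_eq_zero_or_one m
  rcases hmod with h0 | h0
  · refine ⟨(rep x)⁻¹ * (f : G) * 1, ⟨_, ⟨x, hx, f, hf, rfl⟩, 1, Or.inl rfl, rfl⟩, ?_⟩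
    refine ⟨Multiplicative.ofAdd (l, m / 2), ?_⟩
    rw [hφ]
    have h3 : t ^ m = u ^ (m / 2) := by
      rw [hu, ← zpow_mul]
      congr 1
      omega
    rw [hg', h3]; group
  · have h3 : t ^ m = t * u ^ (m / 2) := by
      rw [hu, ← zpow_mul, ← zpow_one_add]
      congr 1
      omega
    obtain ⟨l', hl''⟩ : ∃ l' : ℤ, w ^ l * t = t * w ^ l' := by
      rcases htw with h | h
      · refine ⟨l, ?_⟩
        have h4 : Commute t w := mul_inv_eq_iff_eq_mul.1 h
        exact (h4.zpow_right l).eq.symm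
      · refine ⟨-l, ?_⟩
        have h4 : SemiconjBy t w w⁻¹ := mul_inv_eq_iff_eq_mul.1 h
        have h5 := h4.zpow_right (-l)
        rw [inv_zpow, zpow_neg, inv_inv] at h5
        rw [zpow_neg]
        exact h5.eq.symm
    refine ⟨(rep x)⁻¹ * (f : G) * t, ⟨_, ⟨x, hx, f, hf, rfl⟩, t, Or.inr rfl, rfl⟩, ?_⟩
    refine ⟨Multiplicative.ofAdd (l', m / 2), ?_⟩
    rw [hφ]
    have h6 : g = (rep x)⁻¹ * (f : G) * (w ^ l * t) * u ^ (m / 2) := by
      rw [hg', h3]; group
    rw [h6, hl'']; group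


theorem lc_lip {G X : Type} [Group G] [Group X] {S : Set G} {S' : Set X}
    (gS : Subgroup.closure S = ⊤) (gS' : Subgroup.closure S' = ⊤) (f : G → X) (M : ℕ)
    (h : ∀ x, ∀ s, (s ∈ S ∨ s⁻¹ ∈ S) → wdist S' (f x) (f (x * s)) ≤ M) (x y : G) :
    wdist S' (f x) (f y) ≤ M * wdist S x y := by
  have key : ∀ l : List G, (∀ s ∈ l, s ∈ S ∨ s⁻¹ ∈ S) → ∀ x,
      wdist S' (f x) (f (x * l.prod)) ≤ M * l.length := by
    intro l
    induction l with
    | nil => intro _ x; simp [wdist_self]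
    | cons s l ih =>
      intro hl x
      have h1 := h x s (hl s List.mem_cons_self)
      have h2 := ih (fun t ht => hl t (List.mem_cons_of_mem _ ht)) (x * s)
      rw [List.prod_cons, ← mul_assoc, List.length_cons]
      have h3 := wdist_triangle gS' (f x) (f (x * s)) (f (x * s * l.prod))
      have h4 : M * (l.length + 1) = M * l.length + M := by ring
      omega
  obtain ⟨l, hl, hprod, hlen⟩ := q6_exists_word gS (x⁻¹ * y)
  have h5 := key l hl x
  rw [hprod, mul_inv_cancel_left, hlen] at h5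
  exact h5

/-- the map that exchanges the coordinates is a quasi-isometry -/
theorem lc_swap_qi {G : Type} [Group G] {S : Set G} (hS : S.Finite)
    (gS : Subgroup.closure S = ⊤) (φ : Multiplicative (ℤ × ℤ) →* G)
    (hinj : Function.Injective φ) (hfi : φ.range.FiniteIndex) :
    ∃ (K : ℕ) (f : G → G), IsQI S S K f ∧
      ∀ i j : ℤ, f (φ (Multiplicative.ofAdd (i, j))) = φ (Multiplicative.ofAdd (j, i)) := by
  classical
  obtain ⟨F, hF, hcov⟩ := q2_cover _ hfi
  have hex : ∀ x : G, ∃ (z : ℤ × ℤ) (k : G), (k⁻¹ ∈ F ∨ k = 1) ∧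
      x = φ (Multiplicative.ofAdd z) * k ∧ (x ∈ φ.range → k = 1) := by
    intro x
    by_cases hx : x ∈ φ.range
    · obtain ⟨z, hz⟩ := hx
      exact ⟨Multiplicative.toAdd z, 1, Or.inr rfl, by rw [mul_one, ofAdd_toAdd, hz], fun _ => rfl⟩
    · obtain ⟨f, hf, z, hz⟩ := hcov x⁻¹
      refine ⟨Multiplicative.toAdd z⁻¹, f⁻¹, Or.inl (by rwa [inv_inv]), ?_, fun h => absurd h hx⟩
      rw [ofAdd_toAdd, map_inv, hz]; group
  choose z k hk hx hk1 using hex
  let f : G → G := fun x => φ (Multiplicative.ofAdd ((z x).2, (z x).1))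
  let A : Set G := {k | k⁻¹ ∈ F ∨ k = 1}
  have hA : A.Finite := by
    refine ((hF.image (fun x => x⁻¹)).union (Set.finite_singleton (1 : G))).subset ?_
    rintro k (h | h)
    · exact Or.inl ⟨k⁻¹, h, inv_inv k⟩
    · exact Or.inr h
  have hfφ : ∀ i j : ℤ,
      f (φ (Multiplicative.ofAdd (i, j))) = φ (Multiplicative.ofAdd (j, i)) := by
    intro i j
    have h1 := hx (φ (Multiplicative.ofAdd (i, j)))
    rw [hk1 _ ⟨_, rfl⟩, mul_one] at h1
    have h2 : (i, j) = z (φ (Multiplicative.ofAdd (i, j))) :=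
      Multiplicative.ofAdd.injective (hinj h1)
    show φ (Multiplicative.ofAdd ((z _).2, (z _).1)) = _
    rw [← h2]
  have hff : ∀ x, f (f x) = φ (Multiplicative.ofAdd (z x)) := fun x => hfφ _ _
  obtain ⟨B, hB⟩ : ∃ B : ℕ, ∀ x, wdist S (φ (Multiplicative.ofAdd (z x))) x ≤ B := by
    obtain ⟨B, hB⟩ := (hA.image (wlen S)).bddAbove
    refine ⟨B, fun x => ?_⟩
    have h1 := hB ⟨k x, hk x, rfl⟩
    have h2 : (φ (Multiplicative.ofAdd (z x)))⁻¹ * x = k x := inv_mul_eq_of_eq_mul (hx x)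
    unfold wdist
    rw [h2]
    exact h1
  obtain ⟨M, hM⟩ : ∃ M, ∀ x s, (s ∈ S ∨ s⁻¹ ∈ S) → wdist S (f x) (f (x * s)) ≤ M := by
    let S2 : Set G := {s | s ∈ S ∨ s⁻¹ ∈ S}
    have hS2 : S2.Finite := by
      refine (hS.union (hS.image (fun x => x⁻¹))).subset ?_
      rintro k (h | h)
      · exact Or.inl h
      · exact Or.inr ⟨k⁻¹, h, inv_inv k⟩
    let Fn : Set G := Set.image2 (fun (p : G) (k' : G) => p * k'⁻¹)
      (Set.image2 (fun (k : G) (s : G) => k * s) A S2) A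
    have hFn : Fn.Finite := (hA.image2 _ hS2).image2 _ hA
    have hpre : {v : ℤ × ℤ | φ (Multiplicative.ofAdd v) ∈ Fn}.Finite :=
      hFn.preimage ((hinj.comp Multiplicative.ofAdd.injective).injOn)
    obtain ⟨M, hM⟩ :=
      (hpre.image (fun v => wlen S (φ (Multiplicative.ofAdd (v.2, v.1))))).bddAbove
    refine ⟨M, fun x s hs => hM ⟨z (x * s) - z x, ?_, ?_⟩⟩
    · show φ (Multiplicative.ofAdd (z (x * s) - z x)) ∈ Fn
      have h0 : φ (Multiplicative.ofAdd (z (x * s) - z x)) = k x * s * (k (x * s))⁻¹ := by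
        rw [sub_eq_neg_add, ofAdd_add, map_mul, ofAdd_neg, map_inv, inv_mul_eq_iff_eq_mul,
          ← mul_assoc, ← mul_assoc, ← hx x, eq_mul_inv_iff_mul_eq, ← hx (x * s)]
      rw [h0]
      exact ⟨_, ⟨_, hk x, s, hs, rfl⟩, _, hk (x * s), rfl⟩
    · show wlen S (φ (Multiplicative.ofAdd ((z (x * s) - z x).2, (z (x * s) - z x).1))) =
        wlen S ((φ (Multiplicative.ofAdd ((z x).2, (z x).1)))⁻¹ *
          φ (Multiplicative.ofAdd ((z (x * s)).2, (z (x * s)).1)))
      rw [← map_inv, ← map_mul, ← ofAdd_neg, ← ofAdd_add]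
      congr 3
      refine Prod.ext ?_ ?_
      · simp only [Prod.snd_sub, Prod.neg_mk, Prod.mk_add_mk]; ring
      · simp only [Prod.fst_sub, Prod.neg_mk, Prod.mk_add_mk]; ring
  have hlip := lc_lip gS gS f M hM
  have hM1 : M ≤ max M (B + B) := le_max_left _ _
  have hB1 : B + B ≤ max M (B + B) := le_max_right _ _
  refine ⟨max M (B + B), f, ⟨fun x y => ?_, fun x y => ?_, fun y => ⟨f y, ?_⟩⟩, hfφ⟩
  · exact ((hlip x y).trans (Nat.mul_le_mul_right _ hM1)).trans (Nat.le_add_right _ _)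
  · have h1 := hlip (f x) (f y)
    rw [hff, hff] at h1
    have h2 := wdist_triangle gS x (φ (Multiplicative.ofAdd (z x))) y
    have h3 := wdist_triangle gS (φ (Multiplicative.ofAdd (z x)))
      (φ (Multiplicative.ofAdd (z y))) y
    have h4 := hB x
    rw [wdist_comm gS] at h4
    have h5 := hB y
    have h6 : M * wdist S (f x) (f y) ≤ max M (B + B) * wdist S (f x) (f y) :=
      Nat.mul_le_mul_right _ hM1
    omega
  · rw [hff, wdist_comm gS]
    exact (hB y).trans ((Nat.le_add_right _ _).trans hB1)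

/-- if each vertex of the tree has at most two neighbours, some quasi-isometry moves the edge
group across itself -/
theorem line_crossed {G : Type} [Group G] {S : Set G} (hS : S.Finite)
    (gS : Subgroup.closure S = ⊤) (E : Splitting G) (hC : TwoEnded E.edgeGroup)
    (hv : ¬ Branch E) : ¬ NotCrossed S E E.edgeGroup := by
  intro hnc
  obtain ⟨s, hs, φ, n, hn, hinj, hfi, hφC, hpos⟩ := lc_struct E hC hv
  obtain ⟨K, f, hf, hfφ⟩ := lc_swap_qi hS gS φ hinj hfi
  obtain ⟨R, hR⟩ := hnc K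
  let vt : ℤ → E.V := fun k => ((s ^ k) (lcBase E)).1.1
  have hadj : ∀ k, E.T.Adj (vt k) (vt (k + 1)) := by
    intro k
    have h1 : (s ^ (k + 1)) (lcBase E) = s ((s ^ k) (lcBase E)) := by
      rw [add_comm, zpow_add, zpow_one]; rfl
    have h2 : vt (k + 1) = ((s ^ k) (lcBase E)).1.2 := by
      show ((s ^ (k + 1)) (lcBase E)).1.1 = _
      rw [h1, (hs _).1]
    rw [h2]
    exact ((s ^ k) (lcBase E)).2
  have hdist : ∀ (k : ℤ) (m : ℕ), E.T.dist (vt k) (vt (k + m)) ≤ m := by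
    intro k m
    induction m with
    | zero => simp
    | succ m ih =>
      have h1 := E.tree.connected.dist_triangle (u := vt k) (v := vt (k + m))
        (w := vt (k + m + 1))
      have h2 := SimpleGraph.dist_eq_one_iff_adj.2 (hadj (k + m))
      rw [Nat.cast_succ, ← add_assoc]
      omega
  have hu : ∀ j : ℤ, φ (Multiplicative.ofAdd ((0 : ℤ), j)) • E.a = vt (n * j) := fun j =>
    congrArg (fun p : DD E => p.1.1) (hpos j)
  obtain ⟨N, hN⟩ : ∃ N : ℕ, ∀ g, wlen S g ≤ R → E.T.dist E.a (g • E.a) ≤ N := by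
    obtain ⟨N, hN⟩ :=
      (((properLen_wlen hS gS).fin R).image (fun g => E.T.dist E.a (g • E.a))).bddAbove
    exact ⟨N, fun g hg => hN ⟨g, hg, rfl⟩⟩
  have hdeep : ∀ j : ℤ, N < E.T.dist E.a (vt (n * j)) →
      f (φ (Multiplicative.ofAdd (j, (0 : ℤ)))) ∉ nbhd S R (E.edgeGroup : Set G) := by
    rintro j hj ⟨l, hl, hd⟩
    rw [hfφ, wdist_comm gS] at hd
    have h1 := hN (l⁻¹ * φ (Multiplicative.ofAdd ((0 : ℤ), j))) hd
    have h2 : (l⁻¹ * φ (Multiplicative.ofAdd ((0 : ℤ), j))) • E.a = vt (n * j) := by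
      rw [mul_smul, hu, lc_fix hv (E.edgeGroup.inv_mem hl)]
    rw [h2] at h1
    omega
  have hnear : ∀ y, ∃ j : ℤ, E.T.dist (vt (n * j)) y ≤ n.toNat := by
    intro y
    obtain ⟨k, hk⟩ := lc_vertex hv hs y
    refine ⟨k / n, ?_⟩
    have h1 := hdist (n * (k / n)) (k % n).toNat
    have h0 := Int.emod_nonneg k hn.ne'
    have h0' := Int.emod_lt_of_pos k hn
    have h2 : n * (k / n) + ((k % n).toNat : ℤ) = k := by
      rw [Int.toNat_of_nonneg h0]
      exact Int.mul_ediv_add_emod k n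
    rw [h2] at h1
    have h3 : vt k = y := hk
    rw [h3] at h1
    omega
  have hside : ∀ x y, E.T.dist x y ≤ n.toNat → n.toNat < E.T.dist E.a y →
      (side E.T E.a E.b x ↔ side E.T E.a E.b y) := by
    intro x y h1 h2
    classical
    obtain ⟨p, hp⟩ := E.tree.connected.exists_walk_length_eq_dist x y
    refine q5_walk_side p ?_
    intro ha
    have h3 := congrArg SimpleGraph.Walk.length (p.take_spec ha)
    rw [SimpleGraph.Walk.length_append] at h3
    have h4 : E.T.dist E.a y ≤ (p.dropUntil E.a ha).length := SimpleGraph.dist_le _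
    omega
  have key : ∀ y, N + n.toNat + n.toNat + 1 ≤ E.T.dist E.a y → ∃ j : ℤ,
      f (φ (Multiplicative.ofAdd (j, (0 : ℤ)))) ∉ nbhd S R (E.edgeGroup : Set G) ∧
      (side E.T E.a E.b (f (φ (Multiplicative.ofAdd (j, (0 : ℤ)))) • E.a) ↔
        side E.T E.a E.b y) := by
    intro y hy
    obtain ⟨j, hj⟩ := hnear y
    refine ⟨j, hdeep j ?_, ?_⟩
    · have := E.tree.connected.dist_triangle (u := E.a) (v := vt (n * j)) (w := y)
      omega
    · rw [hfφ, hu]
      exact hside _ _ hj (by omega)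
  rcases hR f hf with h | h
  · obtain ⟨y, hy, hd⟩ := E.unbdd.2 E.a (N + n.toNat + n.toNat + 1)
    obtain ⟨j, h1, h2⟩ := key y hd
    exact hy (h2.1 (h _ (hφC j) h1))
  · obtain ⟨y, hy, hd⟩ := E.unbdd.1 E.a (N + n.toNat + n.toNat + 1)
    obtain ⟨j, h1, h2⟩ := key y hd
    exact h _ (hφC j) h1 (h2.2 hy)

end Pool.Agent.QIS
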