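import Pool.Agent.H67.W3.Fin3
import Pool.Agent.H67.W3.LineCross

/-!
# The third main theorem: an uncrossed edge group is enough
-/

set_option autoImplicit false

namespace Pool.Agent.QIS

/-- Let `G` be a finitely generated one-ended group that splits over a two-ended subgroup `C`, and
suppose that no quasi-isometry of `G` moves `C` across `C`. Then every finitely generated group
quasi-isometric to `G` splits over a two-ended subgroup. -/
theorem main_theorem3 (G H : Type) [Group G] [Group H] (S : Set G) (S' : Set H) (hS : S.Finite)
    (hS' : S'.Finite) (hSg : Subgroup.closure S = ⊤) (hS'g : Subgroup.closure S' = ⊤)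
    (hone : OneEnded S) (E : Splitting G) (hC : TwoEnded E.edgeGroup)
    (hnc : NotCrossed S E E.edgeGroup)
    (hqi : ∃ (K : ℕ) (F : G → H), IsQI S S' K F) : SplitsOverTwoEnded H := by
  obtain ⟨K, F, hF⟩ := hqi
  obtain ⟨K', F', hF', h1, h2⟩ := exists_quasiInverse hSg hS'g K F hF
  obtain ⟨c, hc, hinf, Dc, hcov⟩ := line_of_twoEnded (S := S) hC
  let D : Sp G :=
    { S := S, hS := hS, gS := hSg, hone := hone, E := E, hC := hC, nc := hnc, c := c, hc := hc
      hinf := hinf, Dc := Dc, hcov := hcov }
  let P : Ht G H :=
    { D := D
      hv := by
        by_contra hv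
        exact line_crossed hS hSg E hC hv hnc
      S' := S', hS' := hS', gS' := hS'g
      K := max (max K K') 1
      hK := le_max_right _ _
      F :=
        { f := F
          f' := F'
          hf := hF.mono ((le_max_left _ _).trans (le_max_left _ _))
          hf' := hF'.mono ((le_max_right _ _).trans (le_max_left _ _))
          h1 := fun y => (h1 y).trans ((le_max_right _ _).trans (le_max_left _ _))
          h2 := fun x => (h2 x).trans ((le_max_right _ _).trans (le_max_left _ _)) } }
  exact P.splits

end Pool.Agent.QIS
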