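import Pool.Agent.H67.W3.Exit

/-!
# Common right rays
-/

set_option autoImplicit false

namespace Pool.Agent.QIS

namespace Sp

variable {G : Type} [Group G] (D : Sp G)

theorem Near.mono {D : Sp G} {K : ℕ} {w : QW D.S D.S K} {T T' : ℕ} {s : ℤ} (h : D.Near w T s)
    (hT : T ≤ T') : D.Near w T' s :=
  nbhd_mono hT _ h

theorem Cl.mono {D : Sp G} {K : ℕ} {w : QW D.S D.S K} {n n' k : ℕ} (h : D.Cl w n k)
    (hn : n' ≤ n) : D.Cl w n' k :=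
  fun x hx => h x (hx.trans hn)

theorem merge_mem_Zb {K : ℕ} (w : QW D.S D.S K) (σ : Bool) (y : G) :
    y ∈ D.Zb w σ ↔ w.f' y ∈ D.ZC σ := by
  cases σ
  · exact Iff.rfl
  · exact Iff.rfl

/-- if some line `t` has a common right ray with `C` and leaves it at the left, then no line leaves
`C` at the right -/
theorem merge (K : ℕ) (hK : 1 ≤ K) (T₂ : ℕ) : ∃ T₅ T₄ n : ℕ, ∀ t : QW D.S D.S K,
    D.Cl t n K → (∀ s : ℤ, 0 ≤ s → D.Near t T₂ s) → (∃ s : ℤ, s ≤ 0 ∧ ¬ D.Near t T₅ s) →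
    ∀ w : QW D.S D.S K, D.Cl w n K → D.Cl w.inv n K →
      (∀ s : ℤ, 0 ≤ s → D.Near w T₄ s) ∨ (∀ s : ℤ, 0 ≤ s → D.Near w.inv T₄ s) := by
  obtain ⟨TD, n₁, hD⟩ := D.no_double_exit K hK
  obtain ⟨R, T₀, n₂, hS⟩ := D.sides K hK
  obtain ⟨f, ρ, -, hf⟩ := D.dich K R
  obtain ⟨z, n₃, -, hz⟩ := D.center K ρ
  obtain ⟨T₄, hT₄⟩ : ∃ T₄ : ℕ, T₄ = T₀ + TD + f T₂ + (K * R + K + K + R) := ⟨_, rfl⟩
  refine ⟨T₀ + f TD, T₄, n₁ + n₂ + n₃, fun t ht ht2 hte w hw hwi => ?_⟩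
  obtain ⟨s₀, hs₀, hne⟩ := hte
  obtain ⟨σ, hσ⟩ : ∃ σ, D.Ab t R σ ∧ D.Up t R σ := by
    rcases hS t (ht.mono (by omega)) with h | h
    · exact absurd ((h s₀).mono (by omega)) hne
    · exact h
  -- a wall on the side `σ`
  have key : ∀ v : QW D.S D.S K, D.Cl v (n₁ + n₂ + n₃) K → D.Ab v R σ →
      ∀ s : ℤ, 0 ≤ s → D.Near v T₄ s := by
    intro v hv hab b hb
    by_contra hcon
    have h1 : ∀ s : ℤ, s ≤ 0 → D.Near v TD s := by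
      rcases hD v (hv.mono (by omega)) with h | h
      · exact absurd ((h b hb).mono (by omega)) hcon
      · exact h
    have hzv := hz v (hv.mono (by omega)) σ
    have hzt := hz t (ht.mono (by omega)) σ
    rcases hf v t σ hab hσ.1 ⟨z σ, hzv.1, hzt.1, hzv.2⟩ with h | h
    · exact h b T₂ (fun h' => hcon (h'.mono (by omega))) (ht2 b hb)
    · exact h s₀ TD (fun h' => hne (h'.mono (by omega))) (h1 s₀ hs₀)
  rcases hS w (hw.mono (by omega)) with h | ⟨τ, hτ1, hτ2⟩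
  · exact Or.inl fun s _ => (h s).mono (by omega)
  by_cases e : τ = σ
  · subst e
    exact Or.inl (key w hw hτ1)
  rcases hS w.inv (hwi.mono (by omega)) with h | ⟨τ', hτ1', hτ2'⟩
  · exact Or.inr fun s _ => (h s).mono (by omega)
  by_cases e' : τ' = σ
  · subst e'
    exact Or.inr (key w.inv hwi hτ1')
  -- both on the side `!σ`
  have e1 : τ = !σ := by
    revert e; cases τ <;> cases σ <;> simp
  have e2 : τ' = !σ := by
    revert e'; cases τ' <;> cases σ <;> simp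
  subst e1; subst e2
  refine Or.inl fun s _ => ?_
  by_cases hn : D.c ^ s ∈ nbhd D.S R (D.L w)
  · exact nbhd_mono (by omega) _ hn
  · have h1 := hτ1 (D.c ^ s) (D.zpow_mem s) hn
    rw [D.mem_Zb_not, not_not, merge_mem_Zb] at h1
    have h2 : w.f' (D.c ^ s) ∈ D.L w.inv := ⟨D.c ^ s, D.zpow_mem s, rfl⟩
    have h3 : w.f' (D.c ^ s) ∈ nbhd D.S R D.C := by
      by_contra h4
      have h5 := hτ2' _ h2 h4
      rw [D.mem_ZC_not] at h5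
      exact h5 h1
    exact nbhd_mono (by omega) _ (D.near_push D.gS w h3)

theorem share_push {K : ℕ} (w₁ w₂ : QW D.S D.S K) {x y : G} {T : ℕ}
    (h : wdist D.S (w₁.f' (w₂.f x)) y ≤ T) : wdist D.S (w₂.f x) (w₁.f y) ≤ K * T + K + K := by
  have e1 := w₁.hf.1 (w₁.f' (w₂.f x)) y
  have e2 : K * wdist D.S (w₁.f' (w₂.f x)) y ≤ K * T := Nat.mul_le_mul_left _ h
  have e3 := w₁.h1 (w₂.f x)
  rw [wdist_comm D.gS] at e3
  have e4 := wdist_triangle D.gS (w₂.f x) (w₁.f (w₁.f' (w₂.f x))) (w₁.f y)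
  omega

theorem share_aux {K : ℕ} (w₁ w₂ : QW D.S D.S K) {T : ℕ} (h : D.RC (QW.comp D.gS w₁ w₂) T) :
    (∀ i : ℕ, ∃ j : ℕ, wdist D.S (w₂.f (D.c ^ i)) (w₁.f (D.c ^ j)) ≤ K * T + K + K) ∧
    (∀ i : ℕ, ∃ j : ℕ, wdist D.S (w₁.f (D.c ^ i)) (w₂.f (D.c ^ j)) ≤ K * T + K + K) := by
  constructor
  · intro i
    obtain ⟨j, hj⟩ := h.1 i
    exact ⟨j, D.share_push w₁ w₂ hj⟩
  · intro i
    obtain ⟨j, hj⟩ := h.2 i
    refine ⟨j, ?_⟩
    rw [wdist_comm D.gS] at hj ⊢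
    exact D.share_push w₁ w₂ hj

/-- two quasi-isometries that agree on a large ball have close right rays -/
theorem share (K : ℕ) (hK : 1 ≤ K) (T₂ : ℕ) : ∃ T₅ T₇ n : ℕ, ∀ t : QW D.S D.S (Kc K),
    D.Cl t n (Kc K) → (∀ s : ℤ, 0 ≤ s → D.Near t T₂ s) → (∃ s : ℤ, s ≤ 0 ∧ ¬ D.Near t T₅ s) →
    ∀ w₁ w₂ : QW D.S D.S K, (∀ x, wdist D.S 1 x ≤ n → w₁.f x = w₂.f x) →
      (∀ i : ℕ, ∃ j : ℕ, wdist D.S (w₂.f (D.c ^ i)) (w₁.f (D.c ^ j)) ≤ T₇) ∧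
      (∀ i : ℕ, ∃ j : ℕ, wdist D.S (w₁.f (D.c ^ i)) (w₂.f (D.c ^ j)) ≤ T₇) := by
  obtain ⟨T₅, T₄, n₁, h1⟩ := D.merge (Kc K) (hK.trans (QW.le_Kc K)) T₂
  obtain ⟨T', n₂, h2⟩ := D.right_close (Kc K) T₄
  refine ⟨T₅, K * T' + K + K, n₁ + n₂, fun t ht ht2 hte w₁ w₂ hag => ?_⟩
  have c1 : D.Cl (QW.comp D.gS w₁ w₂) (n₁ + n₂) (Kc K) := by
    intro x hx
    show wdist D.S (w₁.f' (w₂.f x)) x ≤ Kc K
    rw [← hag x hx]
    exact (w₁.h2 x).trans (QW.le_Kc K)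
  have c2 : D.Cl (QW.comp D.gS w₂ w₁) (n₁ + n₂) (Kc K) := by
    intro x hx
    show wdist D.S (w₂.f' (w₁.f x)) x ≤ Kc K
    rw [hag x hx]
    exact (w₂.h2 x).trans (QW.le_Kc K)
  have c3 : (QW.comp D.gS w₁ w₂).inv = QW.comp D.gS w₂ w₁ := rfl
  rcases h1 t (ht.mono (by omega)) ht2 hte (QW.comp D.gS w₁ w₂) (c1.mono (by omega))
    (by rw [c3]; exact c2.mono (by omega)) with h | h
  · exact D.share_aux w₁ w₂ (h2 _ (c1.mono (by omega)) h)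
  · rw [c3] at h
    have := D.share_aux w₂ w₁ (h2 _ (c2.mono (by omega)) h)
    exact ⟨this.2, this.1⟩

end Sp

end Pool.Agent.QIS
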