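import Pool.Agent.H67.W3.A

/-!
# Deep points are joined to their translates away from the edge group
-/

set_option autoImplicit false

namespace Pool.Agent.QIS

section PathAux

variable {G : Type} [Group G] {S : Set G}

/-- two points are joined off a set, or the first is close to it -/
private theorem w3p_walk (hSg : Subgroup.closure S = ⊤) (N : Set G) (R : ℕ) (C : Set G)
    (hN : N = nbhd S R C) : ∀ (l : List G), (∀ a ∈ l, a ∈ S ∨ a⁻¹ ∈ S) → ∀ x : G,
      JoinedOff S N x (x * l.prod) ∨ x ∈ nbhd S (l.length + R) C := by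
  subst hN
  intro l
  induction l with
  | nil =>
    intro _ x
    left
    rw [List.prod_nil, mul_one]
    exact Relation.ReflTransGen.refl
  | cons s l ih =>
    intro hl x
    have hs : s ∈ S ∨ s⁻¹ ∈ S := hl s (by simp)
    have hd := q6_gen hs x
    by_cases hx : x ∈ nbhd S R C
    · exact Or.inr (nbhd_mono (Nat.le_add_left _ _) _ hx)
    by_cases h : x * s ∈ nbhd S R C
    · right
      refine nbhd_mono ?_ _ (mem_nbhd_of_dist hSg h hd)
      rw [List.length_cons]
      omega
    · rcases ih (fun a ha => hl a (by simp [ha])) (x * s) with h1 | h1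
      · left
        rw [List.prod_cons, ← mul_assoc]
        refine Relation.ReflTransGen.head ⟨?_, hx, h⟩ h1
        rcases hs with hs | hs
        · exact ⟨s, hs, Or.inl rfl⟩
        · exact ⟨s⁻¹, hs, Or.inr (by rw [mul_inv_cancel_right])⟩
      · right
        refine nbhd_mono ?_ _ (mem_nbhd_of_dist hSg h1 hd)
        rw [List.length_cons]
        omega

/-- a path is finite: a property that does not change along its steps is the same at both ends -/
private theorem w3p_const (hSg : Subgroup.closure S = ⊤) (N : Set G) {x y : G}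
    (h : JoinedOff S N x y) : ∃ B : ℕ, ∀ P : G → Prop,
      (∀ x y : G, wdist S x y ≤ 1 → x ∉ N → y ∉ N →
        wdist S 1 x ≤ B → wdist S 1 y ≤ B → (P x ↔ P y)) → (P x ↔ P y) := by
  induction h with
  | refl => exact ⟨0, fun _ _ => Iff.rfl⟩
  | @tail g h _ hst ih =>
    obtain ⟨B, hB⟩ := ih
    refine ⟨max B (max (wdist S 1 g) (wdist S 1 h)), fun P hP => ?_⟩
    refine (hB P (fun x y h1 h2 h3 h4 h5 => hP x y h1 h2 h3 (h4.trans (le_max_left _ _))
      (h5.trans (le_max_left _ _)))).trans ?_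
    exact hP g h (w3_step_le hst.1 hSg) hst.2.1 hst.2.2
      ((le_max_left _ _).trans (le_max_right _ _)) ((le_max_right _ _).trans (le_max_right _ _))

end PathAux

namespace Sp

variable {G : Type} [Group G] (D : Sp G)

/-- a deep point `z` is joined to `c ^ m z` off the `R`-neighbourhood of `C`, by a path in the ball
of radius `B`: a property that does not change along such steps is the same at both points -/
theorem exists_path (R : ℕ) : ∃ ρ : ℕ, ∀ z : G, z ∉ nbhd D.S ρ D.C →
    ∃ m : ℕ, 0 < m ∧ ∃ B : ℕ, ∀ P : G → Prop,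
      (∀ x y : G, wdist D.S x y ≤ 1 → x ∉ nbhd D.S R D.C → y ∉ nbhd D.S R D.C →
        wdist D.S 1 x ≤ B → wdist D.S 1 y ≤ B → (P x ↔ P y)) →
      (P z ↔ P (D.c ^ m * z)) := by
  obtain ⟨ρ, hρ⟩ := exists_full D.hS D.gS D.hone D.E.edgeGroup D.hC (R + 1)
  refine ⟨ρ, fun z hz => ?_⟩
  have hfar : ∀ i : ℕ, ∃ y : {g : G | wlen D.S g ≤ ρ},
      JoinedOff D.S (nbhd D.S R D.C) (D.c ^ i * z) y := by
    intro i
    have hci : D.c ^ i ∈ D.E.edgeGroup := D.E.edgeGroup.pow_mem D.hc i
    have hbd : ∀ x ∈ {y | JoinedOff D.S (nbhd D.S R D.C) (D.c ^ i * z) y}, ∀ y,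
        y ∉ {y | JoinedOff D.S (nbhd D.S R D.C) (D.c ^ i * z) y} →
        x ∈ nbhd D.S ((R + 1) * wdist D.S x y + (R + 1)) (D.E.edgeGroup : Set G) := by
      intro x hx y hy
      obtain ⟨l, h1, h2, h3⟩ := q6_exists_word D.gS (x⁻¹ * y)
      rcases w3p_walk D.gS _ R D.C rfl l h1 x with h | h
      · rw [h2, mul_inv_cancel_left] at h
        exact absurd (Relation.ReflTransGen.trans hx h) hy
      · refine nbhd_mono ?_ _ h
        have e1 : l.length = wdist D.S x y := h3
        rw [e1]
        have e2 : (R + 1) * wdist D.S x y + (R + 1) =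
          R * wdist D.S x y + wdist D.S x y + R + 1 := by ring
        have e3 := Nat.zero_le (R * wdist D.S x y)
        omega
    obtain ⟨x, hx, hd⟩ := hρ {y | JoinedOff D.S (nbhd D.S R D.C) (D.c ^ i * z) y} hbd
      ⟨D.c ^ i * z, Relation.ReflTransGen.refl, fun h => hz ((D.mem_nbhd_C_mul hci ρ z).1 h)⟩
      1 D.E.edgeGroup.one_mem
    refine ⟨⟨x, ?_⟩, hx⟩
    have e : wdist D.S 1 x = wlen D.S x := by
      unfold wdist
      rw [inv_one, one_mul]
    show wlen D.S x ≤ ρ
    rw [← e]
    exact hd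
  choose y hy using hfar
  have hfin : Finite {g : G | wlen D.S g ≤ ρ} := ((properLen_wlen D.hS D.gS).fin ρ).to_subtype
  obtain ⟨i, j, hij, he⟩ := Finite.exists_ne_map_eq_of_infinite y
  have key : ∀ i j : ℕ, i < j → y i = y j → ∃ m : ℕ, 0 < m ∧
      JoinedOff D.S (nbhd D.S R D.C) z (D.c ^ m * z) := by
    intro i j hlt he
    refine ⟨j - i, Nat.sub_pos_of_lt hlt, ?_⟩
    have h1 : JoinedOff D.S (nbhd D.S R D.C) (D.c ^ i * z) (D.c ^ j * z) := by
      have h2 := hy i
      have h3 := w3_symm _ (hy j)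
      rw [he] at h2
      exact h2.trans h3
    have h2 := w3_smul D.E.edgeGroup R (D.E.edgeGroup.inv_mem (D.E.edgeGroup.pow_mem D.hc i)) h1
    rw [inv_mul_cancel_left, ← mul_assoc] at h2
    have h3 : (D.c ^ i)⁻¹ * D.c ^ j = D.c ^ (j - i) := by
      rw [inv_mul_eq_iff_eq_mul, ← pow_add, Nat.add_sub_cancel' hlt.le]
    rw [h3] at h2
    exact h2
  obtain ⟨m, hm, hj⟩ : ∃ m : ℕ, 0 < m ∧ JoinedOff D.S (nbhd D.S R D.C) z (D.c ^ m * z) := by
    rcases lt_or_gt_of_ne hij with h | h
    · exact key i j h he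
    · exact key j i h he.symm
  exact ⟨m, hm, w3p_const D.gS _ hj⟩

end Sp

end Pool.Agent.QIS
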